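import Mathlib
import Pool.Agent.H49.Q1.Harnack

set_option autoImplicit false
open Finset

/-! Decoupling of a far target at an open half ring: standard position. The labels of the half plane
`x ≤ 0`; the half box of radius `k` is `HH k`. If there is an open half ring between the radii `2j`
and `4j`, then a vertex `x` of the half box of radius `j` is connected to the far target `J` iff `x` is
connected to the ring (labels of `HH (4j)`) and the ring is connected to `J` (labels outside of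
`HH j`). No extremal ring is needed. -/

namespace Pool.Agent.H52.Q1

open Pool.Agent.H75.Perc Pool.Agent.H99.NC Pool.Agent.H47.NC Pool.Agent.H47.NC.ArchAux
open Pool.Agent.H49.Q1

/-- the labels of the half box of radius `k` in the standard position -/
noncomputable abbrev HH (k : ℤ) : Finset (ℤ × ℤ) := Bx (-k) 0 (-k) k

/-- Environments which agree with the half plane up to the radius `k`, with a target outside. -/
structure Far (k : ℤ) (E W : Finset (ℤ × ℤ)) (J : ℤ × ℤ → Prop) : Prop where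
  thin : Thin0 E W k
  flat : HH k ⊆ E
  far : ∀ v, J v → ¬ inB (-k + 1) 0 (-k + 1) (k - 1) v

lemma HH_mono {k k' : ℤ} (h : k ≤ k') : HH k ⊆ HH k' := Bx_sub (by omega) le_rfl (by omega) h

lemma Far.mono {k k' : ℤ} {E W : Finset (ℤ × ℤ)} {J : ℤ × ℤ → Prop} (h : k ≤ k')
    (hF : Far k' E W J) : Far k E W J := by
  refine ⟨fun e he => ?_, (HH_mono h).trans hF.flat, fun v hv h1 => hF.far v hv ?_⟩
  · obtain ⟨h1, h2⟩ := hF.thin e (Bx_sub (by omega) h (by omega) h he)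
    refine ⟨fun h3 => ?_, h2⟩
    have h4 := h1 h3
    rw [mem_Bx] at h4 he ⊢
    omega
  · unfold inB at *
    omega

/-! ### The half ring -/

/-- the labels between the radii `j` and `4j` -/
noncomputable def AA (j : ℤ) : Finset (ℤ × ℤ) := HH (4 * j) \ HH j

lemma Circ_local {j : ℤ} (hj : 1 ≤ j) {i : ℤ} (hi : i < 2 * j) {ω ω' : Finset (ℤ × ℤ)}
    (h : ω ∩ (HH (4 * j) \ HH i) ⊆ ω') : Circ j ω → Circ j ω' := by
  have key : ∀ a b c d : ℤ, Bx a b c d ⊆ HH (4 * j) →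
      (b ≤ -(2 * j) ∨ 2 * j ≤ c ∨ d ≤ -(2 * j)) → ω ∩ Bx a b c d ⊆ ω' ∩ Bx a b c d := by
    intro a b c d h1 h2 e he
    rw [mem_inter] at he ⊢
    refine ⟨h (mem_inter.2 ⟨he.1, mem_sdiff.2 ⟨h1 he.2, fun h3 => ?_⟩⟩), he.2⟩
    have h4 := he.2
    rw [mem_Bx] at h3 h4
    omega
  rintro ⟨⟨⟨p, p', p1, p2, p3, p4⟩, ⟨t, t', t1, t2, t3, t4⟩⟩, ⟨b, b', b1, b2, b3, b4⟩⟩
  refine ⟨⟨⟨p, p', p1, p2, p3, p4.mono (key _ _ _ _ ?_ ?_)⟩,
    ⟨t, t', t1, t2, t3, t4.mono (key _ _ _ _ ?_ ?_)⟩⟩,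
    ⟨b, b', b1, b2, b3, b4.mono (key _ _ _ _ ?_ ?_)⟩⟩
  · exact Bx_sub (by omega) (by omega) (by omega) (by omega)
  · left; omega
  · exact Bx_sub (by omega) (by omega) (by omega) (by omega)
  · right; left; omega
  · exact Bx_sub (by omega) (by omega) (by omega) (by omega)
  · right; right; omega

lemma Circ_iff {j : ℤ} (hj : 1 ≤ j) (ω : Finset (ℤ × ℤ)) : Circ j (ω ∩ AA j) ↔ Circ j ω :=
  ⟨fun h => Circ_inc j _ _ inter_subset_left h,
    fun h => Circ_local hj (i := j) (by omega) (fun _ h => h) h⟩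

/-- a vertex of the half ring -/
noncomputable def rv (j : ℤ) (ξ : Finset (ℤ × ℤ)) : ℤ × ℤ := open Classical in
  if h : Circ j ξ then h.1.1.choose else 0

lemma rv_spec {j : ℤ} {ξ : Finset (ℤ × ℤ)} (h : Circ j ξ) :
    inB (-(4 * j)) (-(2 * j)) (-(4 * j)) (4 * j) (rv j ξ) ∧ (rv j ξ).2 = -(4 * j) ∧
      ∃ v' : ℤ × ℤ, v'.2 = 4 * j ∧
        Co (ξ ∩ Bx (-(4 * j)) (-(2 * j)) (-(4 * j)) (4 * j)) (rv j ξ) v' := by
  have h1 : rv j ξ = h.1.1.choose := by
    unfold rv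
    rw [dif_pos h]
  obtain ⟨v', h2, h3, h4, h5⟩ := h.1.1.choose_spec
  rw [h1]
  exact ⟨h2, h3, v', h4, h5⟩

/-- A path from the inner box to the outer sides meets the ring. -/
lemma rv_hit {j : ℤ} (hj : 1 ≤ j) {ξ ω : Finset (ℤ × ℤ)} (hC : Circ j ξ) (hs : ξ ⊆ ω)
    {u z : ℤ × ℤ} (hu : inB (-(2 * j) + 1) 0 (-(2 * j) + 1) (2 * j - 1) u)
    (hz : z.1 = -(4 * j) ∨ z.2 = -(4 * j) ∨ z.2 = 4 * j) (hco : Co (ω ∩ HH (4 * j)) u z) :
    Co (ω ∩ HH (4 * j)) (rv j ξ) u := by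
  obtain ⟨h1, h2, v', h3, h4⟩ := rv_spec hC
  exact hit hj hu hz hco h1 h2 h3 (h4.mono (inter_subset_inter_right hs))
    (HC_inc _ _ _ _ _ _ hs hC.1.2) (HC_inc _ _ _ _ _ _ hs hC.2)

/-- **Decoupling at a half ring.** -/
theorem decouple {j : ℤ} (hj : 1 ≤ j) {E W : Finset (ℤ × ℤ)} {J : ℤ × ℤ → Prop}
    (hF : Far (4 * j) E W J) {ω : Finset (ℤ × ℤ)} (hω : ω ⊆ E) (hC : Circ j (ω ∩ AA j))
    {x : ℤ × ℤ} (hx : inB (-j) 0 (-j) j x) :
    CJ W J x ω ↔ CJ (ω ∩ AA j) (fun v => v = rv j (ω ∩ AA j)) x (ω ∩ HH j) ∧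
      CJ (W ∪ ω ∩ AA j) J (rv j (ω ∩ AA j)) (ω \ HH (4 * j)) := by
  set ξ := ω ∩ AA j with hξ
  have hs : ξ ⊆ ω := inter_subset_left
  have e1 : ω ∩ HH (4 * j) ⊆ ω ∩ HH j ∪ ξ := by
    intro e he
    rw [mem_inter] at he
    rw [mem_union, mem_inter, hξ, mem_inter, AA, mem_sdiff]
    by_cases h : e ∈ HH j
    · exact Or.inl ⟨he.1, h⟩
    · exact Or.inr ⟨he.1, he.2, h⟩
  constructor
  · rintro ⟨v, hv, hc⟩
    constructor
    · obtain ⟨z, z1, z2, z3⟩ := exit_half hF.thin hω (u := x) (v := v)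
        (by unfold inB at hx ⊢; omega) (hF.far v hv) hc
      have h1 := rv_hit hj hC hs (by unfold inB at hx ⊢; omega) z1 z3
      exact ⟨_, rfl, (h1.mono e1).symm⟩
    · have h1 : Co (ω \ HH j ∪ (W ∪ Bx (-j) 0 (-j) j)) x v := by
        refine hc.mono fun e he => ?_
        simp only [mem_union, mem_sdiff] at he ⊢
        tauto
      obtain ⟨u, hu, h2⟩ := last_exit hx h1
      have hs' : ξ ⊆ ω \ HH j := by
        intro e he
        rw [hξ, mem_inter, AA, mem_sdiff] at he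
        exact mem_sdiff.2 ⟨he.1, he.2.2⟩
      obtain ⟨z, z1, z2, z3⟩ := exit_half hF.thin (sdiff_subset.trans hω) (u := u) (v := v)
        (by unfold inB at hu ⊢; omega) (hF.far v hv) h2
      have h3 := rv_hit hj hC hs' (by unfold inB at hu ⊢; omega) z1 z3
      refine ⟨v, hv, (h3.mono ?_).trans (h2.mono ?_)⟩
      · intro e he
        obtain ⟨he1, he2⟩ := mem_inter.1 he
        obtain ⟨he3, he4⟩ := mem_sdiff.1 he1
        exact mem_union_right _ (mem_union_right _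
          (mem_inter.2 ⟨he3, mem_sdiff.2 ⟨he2, he4⟩⟩))
      · intro e he
        rcases mem_union.1 he with he1 | he1
        · obtain ⟨he3, he4⟩ := mem_sdiff.1 he1
          by_cases h : e ∈ HH (4 * j)
          · exact mem_union_right _ (mem_union_right _
              (mem_inter.2 ⟨he3, mem_sdiff.2 ⟨h, he4⟩⟩))
          · exact mem_union_left _ (mem_sdiff.2 ⟨he3, h⟩)
        · exact mem_union_right _ (mem_union_left _ he1)
  · rintro ⟨⟨p, rfl, h1⟩, v, hv, h2⟩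
    refine ⟨v, hv, (h1.mono ?_).trans (h2.mono ?_)⟩
    · intro e he
      rw [mem_union, mem_inter] at he
      rw [mem_union]
      rcases he with h | h
      · exact Or.inl h.1
      · exact Or.inl (hs h)
    · intro e he
      rw [mem_union, mem_union, mem_sdiff] at he
      rw [mem_union]
      rcases he with h | h | h
      · exact Or.inl h.1
      · exact Or.inr h
      · exact Or.inl (hs h)

/-! ### Probabilities -/

/-- `p` is connected to the outer sides of the half box of radius `k` (with the labels `ξ` open) -/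
def RCH (k : ℤ) (ξ : Finset (ℤ × ℤ)) (p : ℤ × ℤ) (a : Finset (ℤ × ℤ)) : Prop :=
  ∃ z : ℤ × ℤ, (z.1 = -k ∨ z.2 = -k ∨ z.2 = k) ∧ Co (a ∪ ξ) p z

lemma RCH_inc (k : ℤ) (ξ : Finset (ℤ × ℤ)) (p : ℤ × ℤ) : Inc (RCH k ξ p) := by
  rintro a a' h ⟨z, hz, hc⟩
  exact ⟨z, hz, hc.mono (union_subset_union h (subset_refl _))⟩

/-- the probability that the ring is connected to the radius `16j` -/
noncomputable def vv (j : ℤ) (ξ : Finset (ℤ × ℤ)) : ℝ :=
  Pr (HH (16 * j) \ HH (4 * j)) (RCH (16 * j) ξ (rv j ξ))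

/-- the probability that the ring is connected to the target -/
noncomputable def ww (j : ℤ) (E W : Finset (ℤ × ℤ)) (J : ℤ × ℤ → Prop) (ξ : Finset (ℤ × ℤ)) : ℝ :=
  Pr (E \ HH (4 * j)) (CJ (W ∪ ξ) J (rv j ξ))

/-- the probability that the wired half box of radius `k` is connected to the target -/
noncomputable def LL (k : ℤ) (E W : Finset (ℤ × ℤ)) (J : ℤ × ℤ → Prop) : ℝ :=
  Pr (E \ HH k) (CJ (W ∪ HH k) J (0, 0))

lemma ww_upper {j : ℤ} (hj : 1 ≤ j) {E W : Finset (ℤ × ℤ)} {J : ℤ × ℤ → Prop}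
    (hF : Far (16 * j) E W J) {ξ : Finset (ℤ × ℤ)} (hξ : ξ ⊆ AA j) (hC : Circ j ξ) :
    ww j E W J ξ ≤ vv j ξ * LL (16 * j) E W J := by
  have h46 : HH (4 * j) ⊆ HH (16 * j) := HH_mono (by omega)
  have hξ4 : ξ ⊆ HH (4 * j) := hξ.trans sdiff_subset
  obtain ⟨r1, r2, -⟩ := rv_spec hC
  have e0 : (E \ HH (4 * j)) \ (HH (16 * j) \ HH (4 * j)) = E \ HH (16 * j) := by
    ext e
    simp only [mem_sdiff]
    constructor
    · rintro ⟨⟨h1, h2⟩, h3⟩
      exact ⟨h1, fun h4 => h3 ⟨h4, h2⟩⟩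
    · rintro ⟨h1, h2⟩
      exact ⟨⟨h1, fun h3 => h2 (h46 h3)⟩, fun h3 => h2 h3.1⟩
  have e1 : HH (16 * j) \ HH (4 * j) ⊆ E \ HH (4 * j) :=
    sdiff_subset_sdiff hF.flat (subset_refl _)
  unfold ww vv LL
  rw [← e0, ← Pr_split e1 (RCH (16 * j) ξ (rv j ξ)) (CJ (W ∪ HH (16 * j)) J (0, 0))]
  apply Pr_mono
  rintro o ho ⟨v, hv, hc⟩
  have hoE : o ⊆ E := ho.trans sdiff_subset
  have ho4 : ∀ e ∈ o, e ∉ HH (4 * j) := fun e he => (mem_sdiff.1 (ho he)).2
  constructor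
  · obtain ⟨z, z1, z2, z3⟩ := exit_half hF.thin (ω := o ∪ ξ)
      (union_subset hoE ((hξ4.trans h46).trans hF.flat)) (u := rv j ξ) (v := v)
      (by unfold inB at r1 ⊢; omega) (hF.far v hv) (hc.mono (by
        intro e he
        simp only [mem_union] at he ⊢
        tauto))
    refine ⟨z, z1, z3.mono fun e he => ?_⟩
    rw [mem_inter, mem_union] at he
    rw [mem_union, mem_inter, mem_sdiff]
    rcases he with ⟨h1 | h1, h2⟩
    · exact Or.inl ⟨h1, h2, ho4 e h1⟩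
    · exact Or.inr h1
  · refine ⟨v, hv, ?_⟩
    have h1 : Co (HH (16 * j)) (0, 0) (rv j ξ) := Bx_conn
      (by unfold inB; simp only; omega) (by unfold inB at r1 ⊢; omega)
    refine (h1.mono (subset_union_right.trans subset_union_right)).trans (hc.mono fun e he => ?_)
    rw [mem_union, mem_union] at he
    rw [mem_union, mem_union, mem_sdiff, mem_sdiff]
    by_cases h2 : e ∈ HH (16 * j)
    · exact Or.inr (Or.inr h2)
    · rcases he with h3 | h3 | h3
      · exact Or.inl ⟨h3, fun h4 => h2 h4.1⟩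
      · exact Or.inr (Or.inl h3)
      · exact Or.inr (Or.inr (h46 (hξ4 h3)))

lemma Pr_Circ_out {j : ℕ} (hj : 1 ≤ j) {i : ℤ} (hi : i < 2 * j) {E : Finset (ℤ × ℤ)}
    (hE : HH (4 * j) ⊆ E) : 1 / 2 ^ 77 ≤ Pr (E \ HH i) (Circ j) := by
  have h1 : 1 / 2 ^ 77 ≤ Pr E (Circ j) := Pr_Circ' hj hE
  rw [← Pr_restrict sdiff_subset (Circ (j : ℤ))]
  refine h1.trans (Pr_mono fun ω hω h => ?_)
  refine Circ_local (by omega) (i := i) hi ?_ h
  intro e he
  rw [mem_inter, mem_sdiff] at he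
  exact mem_inter.2 ⟨he.1, mem_sdiff.2 ⟨hω he.1, he.2.2⟩⟩

lemma ww_lower {j : ℕ} (hj : 1 ≤ j) {E W : Finset (ℤ × ℤ)} {J : ℤ × ℤ → Prop}
    (hF : Far (16 * j) E W J) {ξ : Finset (ℤ × ℤ)} (hξ : ξ ⊆ AA j) (hC : Circ j ξ) :
    1 / 2 ^ 77 * (vv j ξ * LL (4 * j) E W J) ≤ ww j E W J ξ := by
  have h46 : HH (4 * j) ⊆ HH (16 * j) := HH_mono (by omega)
  have hξ4 : ξ ⊆ HH (4 * j) := hξ.trans sdiff_subset
  obtain ⟨r1, r2, -⟩ := rv_spec hC
  have c1 : 1 / 2 ^ 77 ≤ Pr (E \ HH (4 * j)) (Circ (4 * j)) := by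
    have := Pr_Circ_out (j := 4 * j) (by omega) (i := 4 * j) (by push_cast; omega) (E := E) (by
      push_cast
      rw [show (4 : ℤ) * (4 * j) = 16 * j by ring]
      exact hF.flat)
    push_cast at this
    exact this
  have c2 : vv j ξ ≤ Pr (E \ HH (4 * j)) (RCH (16 * j) ξ (rv j ξ)) :=
    Pr_inc (sdiff_subset_sdiff hF.flat (subset_refl _)) (RCH_inc _ _ _)
  have h3 := harris3 (E \ HH (4 * j)) (Circ_inc (4 * j)) (RCH_inc (16 * j) ξ (rv j ξ))
    (CJ_inc (W ∪ HH (4 * j)) J (0, 0))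
  have n1 : 0 ≤ LL (4 * j) E W J := Pr_nonneg _ _
  have n2 : 0 ≤ vv j ξ := Pr_nonneg _ _
  have h4 : 1 / 2 ^ 77 * (vv j ξ * LL (4 * j) E W J) ≤
      Pr (E \ HH (4 * j)) (Circ (4 * j)) * Pr (E \ HH (4 * j)) (RCH (16 * j) ξ (rv j ξ)) *
        Pr (E \ HH (4 * j)) (CJ (W ∪ HH (4 * j)) J (0, 0)) := by
    rw [mul_assoc]
    refine mul_le_mul c1 ?_ (mul_nonneg n2 n1) (le_trans (by norm_num) c1)
    exact mul_le_mul_of_nonneg_right c2 n1
  refine (h4.trans h3).trans ?_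
  apply Pr_mono
  rintro o ho ⟨g1, ⟨z, z1, z2⟩, v, hv, g3⟩
  have hoE : o ⊆ E := ho.trans sdiff_subset
  refine ⟨v, hv, ?_⟩
  have k4 : (4 : ℤ) * (4 * j) = 16 * j := by ring
  -- the ring vertex is connected to the outer ring
  have hω : o ∪ ξ ⊆ E := union_subset hoE ((hξ4.trans h46).trans hF.flat)
  have hW0 : Thin0 E ∅ (16 * j) := fun e he => ⟨(hF.thin e he).1, by simp⟩
  obtain ⟨z', y1, y2, y3⟩ := exit_half hW0 hω (u := rv j ξ) (v := z)
    (by unfold inB at r1 ⊢; omega) (by unfold inB; omega) (by rwa [union_empty])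
  have a1 := rv_hit (j := 4 * j) (by omega) g1 (ω := o ∪ ξ) subset_union_left (u := rv j ξ)
    (z := z') (by unfold inB at r1 ⊢; omega) (by rw [k4]; exact y1) (by rw [k4]; exact y3)
  obtain ⟨u, hu, g4⟩ := last_exit (k := 4 * j) (by unfold inB; simp only; omega) g3
  obtain ⟨z'', y4, y5, y6⟩ := exit_half hF.thin hoE (u := u) (v := v)
    (by unfold inB at hu ⊢; omega) (hF.far v hv) g4
  have a2 := rv_hit (j := 4 * j) (by omega) g1 (ω := o ∪ ξ) subset_union_left (u := u)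
    (z := z'') (by unfold inB at hu ⊢; omega) (by rw [k4]; exact y4)
    (by rw [k4]; exact y6.mono (inter_subset_inter_right subset_union_left))
  have a3 : Co (o ∪ ξ) (rv j ξ) u := (a1.symm.trans a2).mono inter_subset_left
  refine (a3.mono ?_).trans (g4.mono ?_)
  · exact union_subset_union (subset_refl _) subset_union_right
  · exact union_subset_union (subset_refl _) subset_union_left

/-- Comparison of the wired half boxes. -/
theorem LL_compare : ∃ c : ℝ, 0 < c ∧ c ≤ 1 ∧ ∀ {j : ℕ} (_ : 1 ≤ j) {E W : Finset (ℤ × ℤ)}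
    {J : ℤ × ℤ → Prop} (_ : Far (64 * j) E W J), c * LL (16 * j) E W J ≤ LL (4 * j) E W J := by
  obtain ⟨c, hc, h1⟩ := qm_lower'
  obtain ⟨C, hC, h2⟩ := ph_ratio 4
  obtain ⟨c', hc', hc1', h3⟩ := ph_lower
  have hmin : 0 < min 1 (c / C) := lt_min one_pos (by positivity)
  refine ⟨min 1 (c / C), hmin, min_le_left _ _, fun {j} hj {E W} {J} hF => ?_⟩
  have eHB : ∀ k : ℤ, HB (sR (0, 0)) k = HH k := by
    intro k
    rw [HB_R]
    simp only [zero_sub, zero_add]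
  have eFB : ∀ k : ℤ, FB (sR (0, 0)) k = Bx (-k) k (-k) k := by
    intro k
    rw [FB_R]
    simp only [zero_sub, zero_add]
  have hT : Thin (sR (0, 0)) E W (64 * j) := by
    intro e he
    rw [eFB] at he
    rw [eHB]
    exact hF.thin e he
  have hFl : Flat (sR (0, 0)) E W (64 * j) := ⟨hT, by rw [eHB]; exact hF.flat⟩
  have eVI : ∀ (k : ℤ) (v : ℤ × ℤ), VI (sR (0, 0)) k v ↔ inB (-k + 1) 0 (-k + 1) (k - 1) v := by
    intro k v
    rw [VI_R]
    simp only [zero_sub, zero_add]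
  have hJ : ∀ v, J v → ¬ VI (sR (0, 0)) (64 * j) v := by
    intro v hv
    rw [eVI]
    exact hF.far v hv
  have k1 : (4 : ℤ) * ((16 * j : ℕ) : ℤ) = 64 * j := by push_cast; ring
  have g1 := h1 (S := sR (0, 0)) (j := 16 * j) (by omega) (E := E) (W := W)
    (by rw [k1]; exact hFl) (J := J) (by rw [k1]; exact hJ)
  have hF4 := hF.mono (k := 4 * j) (by omega)
  have g2 := qm_upper (S := sR (0, 0)) (k := 4 * j) (by omega) (E := E) (W := W)
    (hT.mono_k (by omega)) (J := J) (by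
      intro v hv
      rw [eVI]
      exact hF4.far v hv)
  rw [sR_g, eHB] at g1 g2
  rw [← eHB, ← Pr_wired, eHB] at g1
  push_cast at g1
  have g3 : ph (4 * j) ≤ C * ph (16 * j) := h2 (4 * j) (16 * j) (by omega) (by omega) (by
    push_cast; omega)
  have hp : 0 < ph (16 * j) := by
    refine lt_of_lt_of_le ?_ (h3 (16 * j) (by omega))
    have : (0 : ℝ) < ((16 * j : ℤ) : ℝ) := by
      have : (0 : ℤ) < 16 * j := by omega
      exact_mod_cast this
    have := Real.rpow_pos_of_pos this (-(1 / 3) : ℝ)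
    positivity
  have n4 : 0 ≤ LL (4 * j) E W J := Pr_nonneg _ _
  have n16 : 0 ≤ LL (16 * j) E W J := Pr_nonneg _ _
  have g4 : c * (ph (16 * j) * LL (16 * j) E W J) ≤ C * ph (16 * j) * LL (4 * j) E W J :=
    (g1.trans g2).trans (mul_le_mul_of_nonneg_right g3 n4)
  have g5 : c * LL (16 * j) E W J ≤ C * LL (4 * j) E W J := by
    have : ph (16 * j) * (c * LL (16 * j) E W J) ≤ ph (16 * j) * (C * LL (4 * j) E W J) := by
      linarith
    exact le_of_mul_le_mul_left this hp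
  have hC0 : 0 < C := by linarith
  calc min 1 (c / C) * LL (16 * j) E W J ≤ c / C * LL (16 * j) E W J :=
        mul_le_mul_of_nonneg_right (min_le_right _ _) n16
    _ = (c * LL (16 * j) E W J) / C := by ring
    _ ≤ (C * LL (4 * j) E W J) / C := div_le_div_of_nonneg_right g5 hC0.le
    _ = LL (4 * j) E W J := by field_simp

end Pool.Agent.H52.Q1
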