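import Mathlib
import Pool.Agent.H52.Q1.Ring

set_option autoImplicit false
open Finset

/-! Ratio of the one-point functions of two points near a flat piece of the boundary: contraction
over the scales. -/

namespace Pool.Agent.H52.Q1

open Pool.Agent.H75.Perc Pool.Agent.H99.NC Pool.Agent.H47.NC Pool.Agent.H47.NC.ArchAux
open Pool.Agent.H49.Q1

lemma Pb_half : Pb (fun _ : ℤ × ℤ => (1 : ℝ) / 2) := Pb.const (by norm_num) (by norm_num)

lemma Pr_eq_Eh (E : Finset (ℤ × ℤ)) (A : Finset (ℤ × ℤ) → Prop) :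
    Pr E A = Ex (fun _ : ℤ × ℤ => (1 : ℝ) / 2) E (fun ω => ind (A ω)) := by
  rw [← PrP_half]
  rfl

/-- the probability that `x` is connected to the ring by labels of `HH (4j)` -/
noncomputable def FF (j : ℤ) (x : ℤ × ℤ) (ξ : Finset (ℤ × ℤ)) : ℝ :=
  Pr (HH j) (CJ ξ (fun v => v = rv j ξ) x)

/-- the part with a ring -/
lemma ring_part {j : ℤ} (hj : 1 ≤ j) {E W : Finset (ℤ × ℤ)} {J : ℤ × ℤ → Prop}
    (hF : Far (4 * j) E W J) {x : ℤ × ℤ} (hx : inB (-j) 0 (-j) j x) :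
    Pr E (fun ω => CJ W J x ω ∧ Circ j ω) =
      Ex (fun _ : ℤ × ℤ => (1 : ℝ) / 2) (AA j) (fun ξ => ind (Circ j ξ) * (FF j x ξ * ww j E W J ξ)) := by
  have hA : AA j ⊆ E := sdiff_subset.trans hF.flat
  have hj4 : HH j ⊆ HH (4 * j) := HH_mono (by omega)
  rw [Pr_eq_Eh, Ex_split _ hA]
  refine Ex_congr fun ξ hξ => ?_
  by_cases hC : Circ j ξ
  · rw [ind_true hC, one_mul]
    have h1 : HH j ⊆ E \ AA j := by
      intro e he
      rw [mem_sdiff, AA, mem_sdiff]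
      exact ⟨hF.flat (hj4 he), fun h => h.2 he⟩
    have h2 : E \ HH (4 * j) ⊆ E \ AA j := sdiff_subset_sdiff (subset_refl _) sdiff_subset
    have hd : Disjoint (HH j) (E \ HH (4 * j)) := by
      rw [disjoint_left]
      intro e he h
      exact (mem_sdiff.1 h).2 (hj4 he)
    have h3 := Pr_indep h1 h2 hd (CJ ξ (fun v => v = rv j ξ) x) (CJ (W ∪ ξ) J (rv j ξ))
    unfold FF ww
    rw [← h3, Pr_eq_Eh]
    refine Ex_congr fun o ho => ?_
    apply ind_congr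
    have hω : ξ ∪ o ⊆ E := union_subset (hξ.trans hA) (ho.trans sdiff_subset)
    have hoA : ∀ e ∈ o, e ∉ AA j := fun e he => (mem_sdiff.1 (ho he)).2
    have e1 : (ξ ∪ o) ∩ AA j = ξ := by
      ext e
      rw [mem_inter, mem_union]
      constructor
      · rintro ⟨h4 | h4, h5⟩
        · exact h4
        · exact absurd h5 (hoA e h4)
      · intro h4
        exact ⟨Or.inl h4, hξ h4⟩
    have e2 : (ξ ∪ o) ∩ HH j = o ∩ HH j := by
      ext e
      rw [mem_inter, mem_union, mem_inter]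
      constructor
      · rintro ⟨h4 | h4, h5⟩
        · have := hξ h4
          rw [AA, mem_sdiff] at this
          exact absurd h5 this.2
        · exact ⟨h4, h5⟩
      · rintro ⟨h4, h5⟩
        exact ⟨Or.inr h4, h5⟩
    have e3 : (ξ ∪ o) \ HH (4 * j) = o ∩ (E \ HH (4 * j)) := by
      ext e
      rw [mem_sdiff, mem_union, mem_inter, mem_sdiff]
      constructor
      · rintro ⟨h4 | h4, h5⟩
        · have := hξ h4
          rw [AA, mem_sdiff] at this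
          exact absurd this.1 h5
        · exact ⟨h4, (mem_sdiff.1 (ho h4)).1, h5⟩
      · rintro ⟨h4, h5, h6⟩
        exact ⟨Or.inr h4, h6⟩
    have hC' : Circ j ((ξ ∪ o) ∩ AA j) := by rwa [e1]
    have h5 := decouple hj hF hω hC' hx
    rw [e1, e2, e3] at h5
    rw [← h5]
    constructor
    · exact fun h => h.1
    · exact fun h => ⟨h, Circ_inc j _ _ subset_union_left hC⟩
  · rw [ind_false hC, zero_mul]
    rw [← Ex_const (fun _ => (1 : ℝ) / 2) (E \ AA j) (0 : ℝ)]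
    refine Ex_congr fun o ho => ?_
    apply ind_false
    rintro ⟨-, h1⟩
    apply hC
    rw [← Circ_iff hj] at h1
    refine Circ_inc j _ _ ?_ h1
    intro e he
    rw [mem_inter, mem_union] at he
    rcases he with ⟨h4 | h4, h5⟩
    · exact h4
    · exact absurd h5 (mem_sdiff.1 (ho h4)).2

/-- the part without a ring -/
lemma noring_part {j : ℤ} (hj : 1 ≤ j) {E W : Finset (ℤ × ℤ)} {J : ℤ × ℤ → Prop}
    (hF : Far (4 * j) E W J) {x : ℤ × ℤ} :
    Pr E (fun ω => CJ W J x ω ∧ ¬ Circ j ω) =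
      Ex (fun _ : ℤ × ℤ => (1 : ℝ) / 2) (E \ HH j) (fun ζ => ind (¬ Circ j ζ) * Pr (HH j) (CJ (W ∪ ζ) J x)) := by
  have hj4 : HH j ⊆ HH (4 * j) := HH_mono (by omega)
  have hjE : HH j ⊆ E := hj4.trans hF.flat
  have e0 : E \ (E \ HH j) = HH j := Finset.sdiff_sdiff_eq_self hjE
  rw [Pr_eq_Eh, Ex_split _ (sdiff_subset (s := E) (t := HH j)), e0]
  refine Ex_congr fun ζ hζ => ?_
  rw [Pr_eq_Eh, ← Ex_smul]
  refine Ex_congr fun ι hι => ?_
  rw [← ind_and]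
  apply ind_congr
  have h1 : CJ W J x (ζ ∪ ι) ↔ CJ (W ∪ ζ) J x ι := by
    unfold CJ
    have : ζ ∪ ι ∪ W = ι ∪ (W ∪ ζ) := by
      ext e
      simp only [mem_union]
      tauto
    rw [this]
  have h2 : Circ j (ζ ∪ ι) ↔ Circ j ζ := by
    constructor
    · intro h
      refine Circ_local hj (i := j) (by omega) ?_ h
      intro e he
      rw [mem_inter, mem_union, mem_sdiff] at he
      rcases he with ⟨h3 | h3, -, h5⟩
      · exact h3
      · exact absurd (hι h3) h5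
    · exact fun h => Circ_inc j _ _ subset_union_left h
  rw [h1, h2]
  tauto

lemma Pr_add_not {E : Finset (ℤ × ℤ)} (A B : Finset (ℤ × ℤ) → Prop) :
    Pr E A = Pr E (fun ω => A ω ∧ B ω) + Pr E (fun ω => A ω ∧ ¬ B ω) := by
  rw [Pr_eq_Eh, Pr_eq_Eh, Pr_eq_Eh, ← Ex_add]
  refine Ex_congr fun ω _ => ?_
  by_cases h1 : A ω <;> by_cases h2 : B ω <;> simp [ind, h1, h2]

/-- Two-sided bound of the ratio of the one-point functions of `x` and `y` in all environments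
which are flat up to the radius `k`. -/
def Bd (k : ℤ) (x y : ℤ × ℤ) (m M : ℝ) : Prop :=
  ∀ (E W : Finset (ℤ × ℤ)) (J : ℤ × ℤ → Prop), Far k E W J →
    m * Pr E (CJ W J y) ≤ Pr E (CJ W J x) ∧ Pr E (CJ W J x) ≤ M * Pr E (CJ W J y)

lemma Bd.mono {k k' : ℤ} (h : k ≤ k') {x y : ℤ × ℤ} {m M : ℝ} (hB : Bd k x y m M) :
    Bd k' x y m M := fun E W J hF => hB E W J (hF.mono h)

lemma far_ring {j : ℤ} (hj : 1 ≤ j) {ξ : Finset (ℤ × ℤ)} (hξ : ξ ⊆ AA j) (hC : Circ j ξ) :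
    Far j (HH j) ξ (fun v => v = rv j ξ) := by
  obtain ⟨r1, r2, -⟩ := rv_spec hC
  refine ⟨fun e he => ⟨fun h => h, fun h => ?_⟩, subset_refl _, ?_⟩
  · have h1 := hξ h
    rw [AA, mem_sdiff, mem_Bx, mem_Bx] at h1
    rw [mem_Bx] at he
    omega
  · rintro v rfl h
    unfold inB at h r1
    omega

lemma far_out {j : ℤ} (hj : 1 ≤ j) {E W : Finset (ℤ × ℤ)} {J : ℤ × ℤ → Prop}
    (hF : Far (4 * j) E W J) {ζ : Finset (ℤ × ℤ)} (hζ : ζ ⊆ E \ HH j) :
    Far j (HH j) (W ∪ ζ) J := by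
  have hF' := hF.mono (k := j) (by omega)
  refine ⟨fun e he => ⟨fun h => h, fun h => ?_⟩, subset_refl _, hF'.far⟩
  obtain ⟨h1, h2⟩ := hF'.thin e he
  rcases mem_union.1 h with h3 | h3
  · exact h2 h3
  · obtain ⟨h4, h5⟩ := mem_sdiff.1 (hζ h3)
    exact h5 (h1 h4)

/-- **One step of the contraction.** -/
theorem Bd_step : ∃ θ : ℝ, 0 < θ ∧ θ < 1 ∧ ∀ (j : ℕ), 1 ≤ j → ∀ x y : ℤ × ℤ,
    inB (-j) 0 (-j) j x → inB (-j) 0 (-j) j y → ∀ m M : ℝ, m ≤ M → Bd j x y m M →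
    ∃ m' M' : ℝ, m ≤ m' ∧ M' ≤ M ∧ m' ≤ M' ∧ M' - m' ≤ (1 - θ) * (M - m) ∧
      Bd (64 * j) x y m' M' := by
  obtain ⟨c, hc, hc1, hLL⟩ := LL_compare
  set θ : ℝ := 1 / 2 ^ 77 * c * (1 / 2 ^ 77) with hθ
  have hθ0 : 0 < θ := by positivity
  have hθ1 : θ < 1 := by
    rw [hθ]
    have : (1 : ℝ) / 2 ^ 77 * c * (1 / 2 ^ 77) ≤ 1 / 2 ^ 77 * 1 * (1 / 2 ^ 77) := by
      gcongr
    refine lt_of_le_of_lt this (by norm_num)
  refine ⟨θ, hθ0, hθ1, ?_⟩
  intro j hj x y hx hy m M hmM hB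
  have hjz : (1 : ℤ) ≤ j := by exact_mod_cast hj
  -- the fixed quantities
  set U := Ex (fun _ : ℤ × ℤ => (1 : ℝ) / 2) (AA j) (fun ξ => ind (Circ j ξ) * (FF j x ξ * vv j ξ)) with hU
  set V := Ex (fun _ : ℤ × ℤ => (1 : ℝ) / 2) (AA j) (fun ξ => ind (Circ j ξ) * (FF j y ξ * vv j ξ)) with hV
  have hFF : ∀ ξ, ξ ⊆ AA j → Circ j ξ → m * FF j y ξ ≤ FF j x ξ ∧ FF j x ξ ≤ M * FF j y ξ :=
    fun ξ hξ hC => hB (HH j) ξ _ (far_ring hjz hξ hC)
  have hvv : ∀ ξ, 0 ≤ vv j ξ := fun ξ => Pr_nonneg _ _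
  have hFy : ∀ ξ, 0 ≤ FF j y ξ := fun ξ => Pr_nonneg _ _
  have hFx : ∀ ξ, 0 ≤ FF j x ξ := fun ξ => Pr_nonneg _ _
  have gen : ∀ (s : Finset (ℤ × ℤ) → ℝ), (∀ ξ, ξ ⊆ AA j → Circ j ξ → 0 ≤ s ξ) →
      m * Ex (fun _ : ℤ × ℤ => (1 : ℝ) / 2) (AA j) (fun ξ => ind (Circ j ξ) * (FF j y ξ * s ξ)) ≤
        Ex (fun _ : ℤ × ℤ => (1 : ℝ) / 2) (AA j) (fun ξ => ind (Circ j ξ) * (FF j x ξ * s ξ)) ∧
      Ex (fun _ : ℤ × ℤ => (1 : ℝ) / 2) (AA j) (fun ξ => ind (Circ j ξ) * (FF j x ξ * s ξ)) ≤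
        M * Ex (fun _ : ℤ × ℤ => (1 : ℝ) / 2) (AA j) (fun ξ => ind (Circ j ξ) * (FF j y ξ * s ξ)) := by
    intro s hs
    constructor
    · rw [← Ex_smul]
      refine Ex_mono Pb_half fun ξ hξ => ?_
      by_cases hC : Circ j ξ
      · rw [ind_true hC, one_mul, one_mul, ← mul_assoc]
        exact mul_le_mul_of_nonneg_right (hFF ξ hξ hC).1 (hs ξ hξ hC)
      · rw [ind_false hC]; simp
    · rw [← Ex_smul]
      refine Ex_mono Pb_half fun ξ hξ => ?_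
      by_cases hC : Circ j ξ
      · rw [ind_true hC, one_mul, one_mul, ← mul_assoc]
        exact mul_le_mul_of_nonneg_right (hFF ξ hξ hC).2 (hs ξ hξ hC)
      · rw [ind_false hC]; simp
  have hUV := gen (fun ξ => vv j ξ) (fun ξ _ _ => hvv ξ)
  rw [← hU, ← hV] at hUV
  have hV0 : 0 ≤ V := by
    rw [hV]
    refine Ex_nonneg Pb_half fun ξ _ => mul_nonneg (ind_nonneg _) (mul_nonneg (hFy ξ) (hvv ξ))
  -- the ratio
  obtain ⟨q, hq1, hq2, hq3⟩ : ∃ q : ℝ, m ≤ q ∧ q ≤ M ∧ U = q * V := by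
    by_cases hV1 : V = 0
    · refine ⟨m, le_rfl, hmM, ?_⟩
      rw [hV1] at hUV ⊢
      simp only [mul_zero] at hUV ⊢
      exact le_antisymm hUV.2 hUV.1
    · have hVp : 0 < V := lt_of_le_of_ne hV0 (Ne.symm hV1)
      refine ⟨U / V, ?_, ?_, by field_simp⟩
      · rw [le_div_iff₀ hVp]; exact hUV.1
      · rw [div_le_iff₀ hVp]; exact hUV.2
  refine ⟨m + θ * (q - m), M - θ * (M - q), ?_, ?_, ?_, ?_, ?_⟩
  · nlinarith
  · nlinarith
  · nlinarith
  · apply le_of_eq; ring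
  intro E W J hF
  have hF4 : Far (4 * j) E W J := hF.mono (by omega)
  have hF16 : Far (16 * j) E W J := hF.mono (by omega)
  set L := LL (16 * j) E W J with hL
  have hL0 : 0 ≤ L := Pr_nonneg _ _
  have hL4 : c * L ≤ LL (4 * j) E W J := hLL hj hF
  have hwU : ∀ ξ, ξ ⊆ AA j → Circ j ξ → ww j E W J ξ ≤ vv j ξ * L :=
    fun ξ hξ hC => ww_upper hjz hF16 hξ hC
  have hwL : ∀ ξ, ξ ⊆ AA j → Circ j ξ → 1 / 2 ^ 77 * c * L * vv j ξ ≤ ww j E W J ξ := by
    intro ξ hξ hC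
    refine le_trans ?_ (ww_lower hj hF16 hξ hC)
    have : vv j ξ * (c * L) ≤ vv j ξ * LL (4 * j) E W J := mul_le_mul_of_nonneg_left hL4 (hvv ξ)
    calc 1 / 2 ^ 77 * c * L * vv j ξ = 1 / 2 ^ 77 * (vv j ξ * (c * L)) := by ring
      _ ≤ _ := mul_le_mul_of_nonneg_left this (by positivity)
  -- decomposition
  set ax := Pr E (fun ω => CJ W J x ω ∧ Circ j ω) with hax
  set ay := Pr E (fun ω => CJ W J y ω ∧ Circ j ω) with hay
  set nx := Pr E (fun ω => CJ W J x ω ∧ ¬ Circ j ω) with hnx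
  set ny := Pr E (fun ω => CJ W J y ω ∧ ¬ Circ j ω) with hny
  have dx : Pr E (CJ W J x) = ax + nx := Pr_add_not _ _
  have dy : Pr E (CJ W J y) = ay + ny := Pr_add_not _ _
  have ex := ring_part hjz hF4 hx
  have ey := ring_part hjz hF4 hy
  rw [← hax] at ex
  rw [← hay] at ey
  have fx := noring_part hjz hF4 (x := x)
  have fy := noring_part hjz hF4 (x := y)
  rw [← hnx] at fx
  rw [← hny] at fy
  have hn : m * ny ≤ nx ∧ nx ≤ M * ny := by
    rw [fx, fy]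
    constructor
    · rw [← Ex_smul]
      refine Ex_mono Pb_half fun ζ hζ => ?_
      have := (hB (HH j) (W ∪ ζ) J (far_out hjz hF4 hζ)).1
      calc m * (ind (¬ Circ j ζ) * Pr (HH j) (CJ (W ∪ ζ) J y))
          = ind (¬ Circ j ζ) * (m * Pr (HH j) (CJ (W ∪ ζ) J y)) := by ring
        _ ≤ _ := mul_le_mul_of_nonneg_left this (ind_nonneg _)
    · rw [← Ex_smul]
      refine Ex_mono Pb_half fun ζ hζ => ?_
      have := (hB (HH j) (W ∪ ζ) J (far_out hjz hF4 hζ)).2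
      calc ind (¬ Circ j ζ) * Pr (HH j) (CJ (W ∪ ζ) J x)
          ≤ ind (¬ Circ j ζ) * (M * Pr (HH j) (CJ (W ∪ ζ) J y)) :=
            mul_le_mul_of_nonneg_left this (ind_nonneg _)
        _ = _ := by ring
  -- the ring part
  set κ : ℝ := 1 / 2 ^ 77 * c * L with hκ
  have hκ0 : 0 ≤ κ := by positivity
  have sub : ∀ z : ℤ × ℤ, Ex (fun _ : ℤ × ℤ => (1 : ℝ) / 2) (AA j) (fun ξ => ind (Circ j ξ) * (FF j z ξ * (ww j E W J ξ - κ * vv j ξ))) =
      Ex (fun _ : ℤ × ℤ => (1 : ℝ) / 2) (AA j) (fun ξ => ind (Circ j ξ) * (FF j z ξ * ww j E W J ξ)) -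
        κ * Ex (fun _ : ℤ × ℤ => (1 : ℝ) / 2) (AA j) (fun ξ => ind (Circ j ξ) * (FF j z ξ * vv j ξ)) := by
    intro z
    rw [← Ex_smul, ← Ex_sub]
    refine Ex_congr fun ξ _ => ?_
    ring
  have hg := gen (fun ξ => ww j E W J ξ - κ * vv j ξ) (fun ξ hξ hC => by
    have := hwL ξ hξ hC
    linarith)
  rw [sub, sub, ← ex, ← ey, ← hU, ← hV] at hg
  -- the weight of the common component
  have hay1 : ay ≤ L * V := by
    rw [ey, hV, ← Ex_smul]
    refine Ex_mono Pb_half fun ξ hξ => ?_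
    by_cases hC : Circ j ξ
    · rw [ind_true hC, one_mul, one_mul]
      have := mul_le_mul_of_nonneg_left (hwU ξ hξ hC) (hFy ξ)
      linarith
    · rw [ind_false hC]; simp
  have hay2 : 1 / 2 ^ 77 * Pr E (CJ W J y) ≤ ay := by
    have h1 := Pr_harris E (Circ_inc j) (CJ_inc W J y)
    have h2 : 1 / 2 ^ 77 ≤ Pr E (Circ j) := Pr_Circ' hj hF4.flat
    have h3 : Pr E (fun ω => Circ j ω ∧ CJ W J y ω) = ay :=
      Pr_congr fun ω _ => and_comm
    rw [h3] at h1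
    exact (mul_le_mul_of_nonneg_right h2 (Pr_nonneg _ _)).trans h1
  have hκV : θ * Pr E (CJ W J y) ≤ κ * V := by
    have h1 : κ * V = 1 / 2 ^ 77 * c * (L * V) := by rw [hκ]; ring
    rw [h1, hθ]
    calc 1 / 2 ^ 77 * c * (1 / 2 ^ 77) * Pr E (CJ W J y)
        = 1 / 2 ^ 77 * c * (1 / 2 ^ 77 * Pr E (CJ W J y)) := by ring
      _ ≤ 1 / 2 ^ 77 * c * (L * V) := by
        refine mul_le_mul_of_nonneg_left (hay2.trans hay1) (by positivity)
  rw [hq3] at hg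
  rw [dx]
  rw [dy] at hκV ⊢
  obtain ⟨g1, g2⟩ := hg
  obtain ⟨n1, n2⟩ := hn
  clear_value U V L κ ax ay nx ny θ
  constructor
  · -- lower bound
    have h1 : θ * (ay + ny) * (q - m) ≤ κ * V * (q - m) :=
      mul_le_mul_of_nonneg_right hκV (by linarith)
    have e1 : (m + θ * (q - m)) * (ay + ny) = m * ay + m * ny + θ * (ay + ny) * (q - m) := by ring
    have e2 : κ * V * (q - m) = κ * (q * V) - m * (κ * V) := by ring
    have e3 : m * (ay - κ * V) = m * ay - m * (κ * V) := by ring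
    rw [e1]
    rw [e2] at h1
    rw [e3] at g1
    linarith
  · have h1 : θ * (ay + ny) * (M - q) ≤ κ * V * (M - q) :=
      mul_le_mul_of_nonneg_right hκV (by linarith)
    have e1 : (M - θ * (M - q)) * (ay + ny) = M * ay + M * ny - θ * (ay + ny) * (M - q) := by ring
    have e2 : κ * V * (M - q) = M * (κ * V) - κ * (q * V) := by ring
    have e3 : M * (ay - κ * V) = M * ay - M * (κ * V) := by ring
    rw [e1]
    rw [e2] at h1
    rw [e3] at g2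
    linarith

end Pool.Agent.H52.Q1
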