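import Mathlib
import Pool.Agent.H52.Q1.Ratio

set_option autoImplicit false
open Finset

/-! **Ratio regularity of the boundary one-point function on a flat side** (2.5(d) of Q1_M1, (I5) of
Q1_M4): for two points at distance `≤ r` of a side which is flat up to the distance `R`,
`|h(x) / h(p) - 1| ≤ C (r/R)^c`, uniformly in the environment and in the target. -/

namespace Pool.Agent.H52.Q1

open Pool.Agent.H75.Perc Pool.Agent.H99.NC Pool.Agent.H47.NC Pool.Agent.H47.NC.ArchAux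
open Pool.Agent.H49.Q1

lemma Pr_pos {E : Finset (ℤ × ℤ)} {A : Finset (ℤ × ℤ) → Prop} (h : A E) : 0 < Pr E A := by
  classical
  rw [Pr_eq]
  have h1 : E ∈ E.powerset.filter A := mem_filter.2 ⟨mem_powerset.2 (subset_refl _), h⟩
  have h2 : 0 < (E.powerset.filter A).card := card_pos.2 ⟨E, h1⟩
  have h3 : (0 : ℝ) < ((E.powerset.filter A).card : ℝ) := by exact_mod_cast h2
  positivity

lemma HB_std (k : ℤ) : HB (sR (0, 0)) k = HH k := by
  rw [HB_R]
  simp only [zero_sub, zero_add]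

lemma FB_std (k : ℤ) : FB (sR (0, 0)) k = Bx (-k) k (-k) k := by
  rw [FB_R]
  simp only [zero_sub, zero_add]

lemma VI_std (k : ℤ) (v : ℤ × ℤ) :
    VI (sR (0, 0)) k v ↔ inB (-k + 1) 0 (-k + 1) (k - 1) v := by
  rw [VI_R]
  simp only [zero_sub, zero_add]

lemma Far.flat' {k : ℤ} {E W : Finset (ℤ × ℤ)} {J : ℤ × ℤ → Prop} (hF : Far k E W J) :
    Flat (sR (0, 0)) E W k := by
  refine ⟨fun e he => ?_, by rw [HB_std]; exact hF.flat⟩
  rw [FB_std] at he
  rw [HB_std]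
  exact hF.thin e he

lemma Far.far' {k : ℤ} {E W : Finset (ℤ × ℤ)} {J : ℤ × ℤ → Prop} (hF : Far k E W J) :
    ∀ v, J v → ¬ VI (sR (0, 0)) k v := by
  intro v hv
  rw [VI_std]
  exact hF.far v hv

/-- The Harnack inequality as a starting point. -/
lemma Bd_base : ∃ C : ℝ, 1 ≤ C ∧ ∀ (r : ℕ) (y : ℤ), 1 ≤ r → |y| ≤ r →
    Bd (9 * r) (0, y) (0, 0) (1 / C) C := by
  obtain ⟨C1, hC1, h1⟩ := harnack
  obtain ⟨C2, hC2, h2⟩ := harnack'
  have hC : 1 ≤ max C1 C2 := hC1.trans (le_max_left _ _)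
  have hC0 : 0 < max C1 C2 := by linarith
  refine ⟨max C1 C2, hC, fun r y hr hy E W J hF => ?_⟩
  have hF8 : Far (8 * r) E W J := hF.mono (by omega)
  have g1 := h1 (S := sR (0, 0)) hr hy hF8.flat' hF8.far'
  have g2 := h2 (S := sR (0, 0)) hr hy hF.flat' hF.far'
  have eg : (sR (0, 0)).g (0, y) = (0, y) := by simp [sR, syT]
  rw [sR_g, eg] at g1 g2
  have n1 : 0 ≤ Pr E (CJ W J (0, 0)) := Pr_nonneg _ _
  have n2 : 0 ≤ Pr E (CJ W J (0, y)) := Pr_nonneg _ _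
  constructor
  · rw [one_div, inv_mul_le_iff₀ hC0]
    exact g2.trans (mul_le_mul_of_nonneg_right (le_max_right _ _) n2)
  · exact g1.trans (mul_le_mul_of_nonneg_right (le_max_left _ _) n1)

/-- Iteration. -/
lemma Bd_iter : ∃ C θ : ℝ, 1 ≤ C ∧ 0 < θ ∧ θ < 1 ∧ ∀ (r : ℕ) (y : ℤ), 1 ≤ r → |y| ≤ r →
    ∀ n : ℕ, ∃ m M : ℝ, m ≤ M ∧ M - m ≤ (1 - θ) ^ n * C ∧
      Bd (64 ^ n * (9 * r)) (0, y) (0, 0) m M := by
  obtain ⟨C, hC, h0⟩ := Bd_base
  obtain ⟨θ, hθ0, hθ1, h1⟩ := Bd_step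
  have hC0 : 0 < C := by linarith
  refine ⟨C, θ, hC, hθ0, hθ1, fun r y hr hy n => ?_⟩
  induction n with
  | zero =>
    have hC' : 1 / C ≤ C := by
      rw [div_le_iff₀ hC0]
      nlinarith
    refine ⟨1 / C, C, hC', ?_, ?_⟩
    · have : 0 < 1 / C := by positivity
      rw [pow_zero, one_mul]
      linarith
    · rw [pow_zero, one_mul]
      exact h0 r y hr hy
  | succ n ih =>
    obtain ⟨m, M, hmM, hd, hB⟩ := ih
    have hk : ((64 ^ n * (9 * r) : ℕ) : ℤ) = 64 ^ n * (9 * r) := by push_cast; ring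
    have hp : 1 ≤ 64 ^ n := Nat.one_le_pow _ _ (by norm_num)
    have hle : r ≤ 64 ^ n * (9 * r) := by nlinarith
    have hle' : (r : ℤ) ≤ ((64 ^ n * (9 * r) : ℕ) : ℤ) := by exact_mod_cast hle
    have hy' := abs_le.1 hy
    obtain ⟨m', M', g1, g2, g3, g4, g5⟩ := h1 (64 ^ n * (9 * r)) (hr.trans hle) (0, y) (0, 0)
      (by unfold inB; simp only; omega) (by unfold inB; simp only; omega) m M hmM
      (by rw [hk]; exact hB)
    refine ⟨m', M', g3, ?_, ?_⟩
    · calc M' - m' ≤ (1 - θ) * (M - m) := g4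
        _ ≤ (1 - θ) * ((1 - θ) ^ n * C) := mul_le_mul_of_nonneg_left hd (by linarith)
        _ = (1 - θ) ^ (n + 1) * C := by ring
    · rw [hk] at g5
      have : (64 : ℤ) ^ (n + 1) * (9 * r) = 64 * (64 ^ n * (9 * r)) := by ring
      rw [this]
      exact g5

/-- **Ratio limit** (two environments): the ratio of the one-point functions of two points at
distance `≤ r` is determined up to the factor `C (r/R)^c` for all environments which are flat up to
the radius `R`, and it is equal to `1` up to this factor. -/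
theorem ratio_bd : ∃ C c : ℝ, 0 < c ∧ 1 ≤ C ∧ ∀ (r R : ℕ) (y : ℤ), 1 ≤ r → |y| ≤ r → 9 * r ≤ R →
    ∃ m M : ℝ, m ≤ 1 ∧ 1 ≤ M ∧ M - m ≤ C * ((r : ℝ) / R) ^ c ∧ Bd R (0, y) (0, 0) m M := by
  obtain ⟨C, θ, hC, hθ0, hθ1, h⟩ := Bd_iter
  set c : ℝ := -Real.log (1 - θ) / Real.log 64 with hc
  have hl64 : 0 < Real.log 64 := Real.log_pos (by norm_num)
  have hl : Real.log (1 - θ) < 0 := Real.log_neg (by linarith) (by linarith)
  have hc0 : 0 < c := div_pos (by linarith) hl64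
  have hθ' : (64 : ℝ) ^ (-c) = 1 - θ := by
    rw [Real.rpow_def_of_pos (by norm_num)]
    have : Real.log 64 * -c = Real.log (1 - θ) := by
      rw [hc]
      field_simp
    rw [this, Real.exp_log (by linarith)]
  refine ⟨max 1 (C * (9 ^ c / (1 - θ))), c, hc0, le_max_left _ _, ?_⟩
  intro r R y hr hy hR
  have hr9 : 0 < 9 * r := by omega
  have hdiv : R / (9 * r) ≠ 0 := by
    have : 1 ≤ R / (9 * r) := (Nat.one_le_div_iff hr9).2 hR
    omega
  set n := Nat.log 64 (R / (9 * r)) with hn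
  have hn1 : 64 ^ n ≤ R / (9 * r) := Nat.pow_log_le_self 64 hdiv
  have hn2 : R / (9 * r) < 64 ^ (n + 1) := Nat.lt_pow_succ_log_self (by norm_num) _
  have hn3 : 64 ^ n * (9 * r) ≤ R := (Nat.le_div_iff_mul_le hr9).1 hn1
  have hn4 : R < 64 ^ (n + 1) * (9 * r) := (Nat.div_lt_iff_lt_mul hr9).1 hn2
  obtain ⟨m, M, hmM, hd, hB⟩ := h r y hr hy n
  have hB' : Bd R (0, y) (0, 0) m M := hB.mono (by exact_mod_cast hn3)
  have hRpos : (0 : ℝ) < R := by
    have : 0 < R := by omega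
    exact_mod_cast this
  have hrpos : (0 : ℝ) < r := by exact_mod_cast (show 0 < r by omega)
  have hsmall : (1 - θ) ^ n ≤ 9 ^ c / (1 - θ) * ((r : ℝ) / R) ^ c := by
    have e1 : (1 - θ) ^ (n + 1) ≤ 9 ^ c * ((r : ℝ) / R) ^ c := by
      have h3 : (R : ℝ) / (9 * r) ≤ 64 ^ (n + 1) := by
        rw [div_le_iff₀ (by positivity)]
        exact_mod_cast hn4.le
      have h4 : (1 - θ) ^ (n + 1) = ((64 : ℝ) ^ (n + 1)) ^ (-c) := by
        rw [← hθ', ← Real.rpow_natCast, ← Real.rpow_mul (by norm_num), ← Real.rpow_natCast,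
          ← Real.rpow_mul (by norm_num)]
        congr 1
        ring
      rw [h4]
      have h5 : ((64 : ℝ) ^ (n + 1)) ^ (-c) ≤ ((R : ℝ) / (9 * r)) ^ (-c) :=
        Real.rpow_le_rpow_of_nonpos (by positivity) h3 (by linarith)
      refine h5.trans (le_of_eq ?_)
      rw [← Real.mul_rpow (by norm_num) (by positivity), Real.rpow_neg (by positivity),
        ← Real.inv_rpow (by positivity)]
      congr 1
      field_simp
    have h1θ : 0 < 1 - θ := by linarith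
    rw [div_mul_eq_mul_div, le_div_iff₀ h1θ]
    calc (1 - θ) ^ n * (1 - θ) = (1 - θ) ^ (n + 1) := by ring
      _ ≤ _ := e1
  -- the symmetric environment
  set a : ℤ := min (-R) (-R + y) with ha
  set b : ℤ := max R (R + y) with hb
  have hy' := abs_le.1 hy
  have hyR : |y| ≤ R := hy.trans (by omega)
  have hyR' := abs_le.1 hyR
  have hrR : (r : ℤ) ≤ R := by omega
  let Es : Finset (ℤ × ℤ) := Bx (-R) 0 a b
  let Js : ℤ × ℤ → Prop := fun v => v.1 = -R ∨ v.2 = a ∨ v.2 = b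
  have hFs : Far R Es ∅ Js := by
    refine ⟨fun e he => ⟨fun h1 => ?_, by simp⟩, ?_, ?_⟩
    · rw [mem_Bx] at h1 he ⊢
      omega
    · exact Bx_sub (by omega) (by omega) (by omega) (by omega)
    · intro v hv h1
      unfold inB at h1
      simp only [Js] at hv
      omega
  have hsym : Pr Es (CJ ∅ Js (0, y)) = Pr Es (CJ ∅ Js (0, 0)) := by
    rw [Pr_pull (syY y) Es (CJ ∅ Js (0, y))]
    have e1 : Es.map (inv (syY y)).G = Es := by
      ext e
      rw [mem_map_inv, mem_Bx, mem_Bx]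
      have e5 : (syY y).G e = (e.1, 2 * y - e.2) := rfl
      rw [e5]
      simp only
      omega
    rw [e1]
    apply Pr_congr
    intro ω _
    have e2 : ((0, y) : ℤ × ℤ) = (syY y).g (0, 0) := by simp [syY]
    rw [e2, CJ_map]
    have e3 : (∅ : Finset (ℤ × ℤ)).map (inv (syY y)).G = ∅ := by simp
    rw [e3]
    have e4 : (fun v => Js ((syY y).g v)) = Js := by
      funext v
      simp only [Js, syY]
      apply propext
      omega
    rw [e4]
  have hpos : 0 < Pr Es (CJ ∅ Js (0, 0)) := by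
    apply Pr_pos
    refine ⟨(-R, 0), Or.inl rfl, ?_⟩
    rw [union_empty]
    exact Bx_conn (by unfold inB; simp only; omega) (by unfold inB; simp only; omega)
  have hs := hB' Es ∅ Js hFs
  rw [hsym] at hs
  have hm1 : m ≤ 1 := by
    by_contra hcon
    nlinarith [hs.1]
  have hM1 : 1 ≤ M := by
    by_contra hcon
    nlinarith [hs.2]
  refine ⟨m, M, hm1, hM1, ?_, hB'⟩
  have hrp : 0 ≤ ((r : ℝ) / R) ^ c := by positivity
  calc M - m ≤ (1 - θ) ^ n * C := hd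
    _ ≤ (9 ^ c / (1 - θ) * ((r : ℝ) / R) ^ c) * C :=
      mul_le_mul_of_nonneg_right hsmall (by linarith)
    _ = C * (9 ^ c / (1 - θ)) * ((r : ℝ) / R) ^ c := by ring
    _ ≤ _ := mul_le_mul_of_nonneg_right (le_max_right _ _) hrp

/-- **Ratio regularity**, standard position. -/
theorem ratio0 : ∃ C c : ℝ, 0 < c ∧ 1 ≤ C ∧ ∀ (r R : ℕ) (y : ℤ), 1 ≤ r → |y| ≤ r → 9 * r ≤ R →
    ∀ (E W : Finset (ℤ × ℤ)) (J : ℤ × ℤ → Prop), Far R E W J →
    |Pr E (CJ W J (0, y)) - Pr E (CJ W J (0, 0))| ≤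
      C * ((r : ℝ) / R) ^ c * Pr E (CJ W J (0, 0)) := by
  obtain ⟨C, c, hc, hC, h⟩ := ratio_bd
  refine ⟨C, c, hc, hC, fun r R y hr hy hR E W J hF => ?_⟩
  obtain ⟨m, M, hm, hM, hd, hB⟩ := h r R y hr hy hR
  obtain ⟨h1, h2⟩ := hB E W J hF
  have n1 : 0 ≤ Pr E (CJ W J (0, 0)) := Pr_nonneg _ _
  have h3 : (M - m) * Pr E (CJ W J (0, 0)) ≤ C * ((r : ℝ) / R) ^ c * Pr E (CJ W J (0, 0)) :=
    mul_le_mul_of_nonneg_right hd n1
  rw [abs_le]
  constructor <;> nlinarith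

/-- An environment which is flat around the point `S.g (0, 0)`, in standard position. -/
lemma far_pull {S : Sy} {k : ℤ} {E W : Finset (ℤ × ℤ)} {J : ℤ × ℤ → Prop} (hF : Flat S E W k)
    (hJ : ∀ v, J v → ¬ VI S k v) :
    Far k (E.map (inv S).G) (W.map (inv S).G) (fun v => J (S.g v)) := by
  refine ⟨hF.1.std, fun e he => ?_, fun v hv h => hJ _ hv ?_⟩
  · rw [mem_map_inv]
    exact hF.2 ((Finset.mem_map' S.G).2 he)
  · unfold VI
    rw [S.g'g]
    exact h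

lemma Pr_CJ_pull (S : Sy) (E W : Finset (ℤ × ℤ)) (J : ℤ × ℤ → Prop) (x : ℤ × ℤ) :
    Pr E (CJ W J (S.g x)) =
      Pr (E.map (inv S).G) (CJ (W.map (inv S).G) (fun v => J (S.g v)) x) := by
  rw [Pr_pull S E]
  exact Pr_congr fun ω _ => CJ_map S W J x ω

/-- **Ratio regularity of the boundary one-point function on a flat side**: for every lattice
symmetry `S` (the flat side is the image of `{x = 0}`), if the environment `(E, W)` is flat up to the
distance `R` around `S.g (0, 0)` and the target `J` is outside, then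
`|h(S.g (0, y)) - h(S.g (0, 0))| ≤ C (r/R)^c h(S.g (0, 0))` for `|y| ≤ r`. -/
theorem ratio : ∃ C c : ℝ, 0 < c ∧ 1 ≤ C ∧ ∀ (S : Sy) (r R : ℕ) (y : ℤ), 1 ≤ r → |y| ≤ r →
    9 * r ≤ R → ∀ (E W : Finset (ℤ × ℤ)) (J : ℤ × ℤ → Prop), Flat S E W R →
    (∀ v, J v → ¬ VI S R v) →
    |Pr E (CJ W J (S.g (0, y))) - Pr E (CJ W J (S.g (0, 0)))| ≤
      C * ((r : ℝ) / R) ^ c * Pr E (CJ W J (S.g (0, 0))) := by
  obtain ⟨C, c, hc, hC, h⟩ := ratio0
  refine ⟨C, c, hc, hC, fun S r R y hr hy hR E W J hF hJ => ?_⟩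
  rw [Pr_CJ_pull, Pr_CJ_pull]
  exact h r R y hr hy hR _ _ _ (far_pull hF hJ)

/-- **Ratio limit, cross-ratio form**: two environments (possibly in different positions) which are
both flat up to the distance `R`. -/
theorem cross_ratio : ∃ C c : ℝ, 0 < c ∧ 1 ≤ C ∧ ∀ (S S' : Sy) (r R : ℕ) (y : ℤ), 1 ≤ r →
    |y| ≤ r → 9 * r ≤ R → ∀ (E W : Finset (ℤ × ℤ)) (J : ℤ × ℤ → Prop) (E' W' : Finset (ℤ × ℤ))
    (J' : ℤ × ℤ → Prop), Flat S E W R → (∀ v, J v → ¬ VI S R v) → Flat S' E' W' R →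
    (∀ v, J' v → ¬ VI S' R v) →
    |Pr E (CJ W J (S.g (0, y))) * Pr E' (CJ W' J' (S'.g (0, 0))) -
      Pr E (CJ W J (S.g (0, 0))) * Pr E' (CJ W' J' (S'.g (0, y)))| ≤
      C * ((r : ℝ) / R) ^ c * (Pr E (CJ W J (S.g (0, 0))) * Pr E' (CJ W' J' (S'.g (0, 0)))) := by
  obtain ⟨C, c, hc, hC, h⟩ := ratio
  refine ⟨2 * C, c, hc, by linarith, fun S S' r R y hr hy hR E W J E' W' J' hF hJ hF' hJ' => ?_⟩
  have h1 := h S r R y hr hy hR E W J hF hJ
  have h2 := h S' r R y hr hy hR E' W' J' hF' hJ'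
  set a := Pr E (CJ W J (S.g (0, y)))
  set b := Pr E (CJ W J (S.g (0, 0)))
  set a' := Pr E' (CJ W' J' (S'.g (0, y)))
  set b' := Pr E' (CJ W' J' (S'.g (0, 0)))
  set ε := C * ((r : ℝ) / R) ^ c
  have nb : 0 ≤ b := Pr_nonneg _ _
  have nb' : 0 ≤ b' := Pr_nonneg _ _
  have e : a * b' - b * a' = (a - b) * b' - b * (a' - b') := by ring
  rw [e]
  calc |(a - b) * b' - b * (a' - b')| ≤ |(a - b) * b'| + |b * (a' - b')| := abs_sub _ _
    _ = |a - b| * b' + b * |a' - b'| := by rw [abs_mul, abs_mul, abs_of_nonneg nb, abs_of_nonneg nb']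
    _ ≤ (ε * b) * b' + b * (ε * b') := by gcongr
    _ = 2 * C * ((r : ℝ) / R) ^ c * (b * b') := by simp only [ε]; ring

end Pool.Agent.H52.Q1
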