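import Mathlib
import Pool.Agent.H52.Q1.RatioLim
import Pool.Agent.Q1.M4.Limit6
import Pool.Agent.Q1.M5.Defs

set_option autoImplicit false
open Finset Filter Topology

/-! Flat vertices of the free arc of a grid polygon (interface of `Pool/Agent/Q1/M5/Defs.lean`): the
environment is flat up to the distance `c R`, the one-point function `hh` is almost constant near the
vertex (2.5(d)) and of order `R ^ (-1/3)`. -/

namespace Pool.Agent.H52.Q1

open Pool.Agent.H75.Perc hiding WL hh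
open Pool.Agent.H99.NC Pool.Agent.H81.NC Pool.Agent.Q1.M4 Pool.Agent.Q1.M5
open Pool.Agent.H49.Q1 hiding sL

/-! ### Points and labels of a side -/

/-- `e` (in doubled coordinates) lies on the side `s` of the grid with lines `X`, `Y`. -/
def onSeg (X Y : ℤ → ℤ) (s : Cell × ℤ) (e : ℤ × ℤ) : Prop :=
  (2 * X s.1.1 ≤ e.1 ∧ e.1 ≤ 2 * X (s.1.1 + 1)) ∧ (2 * Y s.1.2 ≤ e.2 ∧ e.2 ≤ 2 * Y (s.1.2 + 1)) ∧
  (s.2 % 4 = 0 → e.2 = 2 * Y s.1.2) ∧ (s.2 % 4 = 1 → e.1 = 2 * X (s.1.1 + 1)) ∧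
  (s.2 % 4 = 2 → e.2 = 2 * Y (s.1.2 + 1)) ∧ (s.2 % 4 = 3 → e.1 = 2 * X s.1.1)

/-- the doubled coordinates of a vertex -/
def dbl (v : ℤ × ℤ) : ℤ × ℤ := (2 * v.1, 2 * v.2)

variable {P : PType} {X Y : ℤ → ℤ}

lemma onSeg_of_sL {s : Cell × ℤ} {e : ℤ × ℤ} (h : e ∈ sL X Y s) : onSeg X Y s e := by
  unfold sL at h
  rw [mem_filter] at h
  obtain ⟨h1, h2⟩ := h
  unfold gcell at h1
  rw [mem_Bx] at h1
  exact ⟨h1.1, h1.2.1, h2⟩

lemma onSeg_of_sV {s : Cell × ℤ} {v : ℤ × ℤ} (h : sV X Y s v) : onSeg X Y s (dbl v) := by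
  unfold sV onCell inB at h
  obtain ⟨⟨⟨h1, h2⟩, h3, h4⟩, h5, h6, h7, h8⟩ := h
  unfold onSeg dbl
  simp only
  refine ⟨⟨by omega, by omega⟩, ⟨by omega, by omega⟩, fun h => ?_, fun h => ?_, fun h => ?_,
    fun h => ?_⟩
  · rw [h5 h]
  · rw [h6 h]
  · rw [h7 h]
  · rw [h8 h]

lemma WL_sub (P : PType) (X Y : ℤ → ℤ) : WL P X Y ⊆ gs X Y P.Q := by
  intro e he
  unfold WL at he
  rw [mem_biUnion] at he
  obtain ⟨n, -, h⟩ := he
  unfold sL at h
  rw [mem_filter] at h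
  exact gcell_sub_gs (P.isSide n).1 h.1

lemma EL_union (P : PType) (X Y : ℤ → ℤ) : EL P X Y ∪ WL P X Y = gs X Y P.Q := by
  unfold EL
  exact sdiff_union_of_subset (WL_sub P X Y)

/-- The labels wired anyway may be added to the random ones. -/
lemma Pr_cover (E W : Finset (ℤ × ℤ)) (J : ℤ × ℤ → Prop) (x : ℤ × ℤ) :
    Pr (E ∪ W) (CJ W J x) = Pr E (CJ W J x) := by
  rw [← Pr_restrict (subset_union_left : E ⊆ E ∪ W) (CJ W J x)]
  apply Pr_congr
  intro ω hω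
  unfold CJ
  have : ω ∩ E ∪ W = ω ∪ W := by
    ext e
    simp only [mem_union, mem_inter]
    constructor
    · rintro (⟨h, -⟩ | h)
      · exact Or.inl h
      · exact Or.inr h
    · rintro (h | h)
      · rcases mem_union.1 (hω h) with h1 | h1
        · exact Or.inl ⟨h, h1⟩
        · exact Or.inr h1
      · exact Or.inr h
  rw [this]

/-- The one-point function with all labels random. -/
lemma hh_eq (P : PType) (X Y : ℤ → ℤ) (v : ℤ × ℤ) :
    hh P X Y v = Pr (gs X Y P.Q) (CJ (WL P X Y) (TV P X Y) v) := by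
  unfold hh Pool.Agent.Q1.M5.CT
  rw [← EL_union P X Y, Pr_cover]

/-- the radius `r` is smaller than the meshes around the grid vertex `p` -/
def Small (X Y : ℤ → ℤ) (p : ℤ × ℤ) (r : ℤ) : Prop :=
  (r < X (p.1 + 1) - X p.1 ∧ r < X p.1 - X (p.1 - 1)) ∧
    (r < Y (p.2 + 1) - Y p.2 ∧ r < Y p.2 - Y (p.2 - 1))

/-- A cell which comes near the grid vertex `p` is one of the four cells around `p`. -/
lemma near_cell' (hX : StrictMono X) (hY : StrictMono Y) {p d : ℤ × ℤ} {r : ℤ}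
    (hs : Small X Y p r) (h1 : X d.1 ≤ X p.1 + r) (h2 : X p.1 - r ≤ X (d.1 + 1))
    (h3 : Y d.2 ≤ Y p.2 + r) (h4 : Y p.2 - r ≤ Y (d.2 + 1)) :
    (d.1 = p.1 ∨ d.1 = p.1 - 1) ∧ (d.2 = p.2 ∨ d.2 = p.2 - 1) := by
  obtain ⟨⟨s1, s2⟩, s3, s4⟩ := hs
  have a1 : X d.1 < X (p.1 + 1) := by omega
  have a2 : X (p.1 - 1) < X (d.1 + 1) := by omega
  have a3 : Y d.2 < Y (p.2 + 1) := by omega
  have a4 : Y (p.2 - 1) < Y (d.2 + 1) := by omega
  rw [hX.lt_iff_lt] at a1 a2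
  rw [hY.lt_iff_lt] at a3 a4
  omega

/-- A cell which comes near the grid vertex `p` is one of the four cells around `p`. -/
lemma near_cell (hX : StrictMono X) (hY : StrictMono Y) {p d : ℤ × ℤ} {r : ℤ}
    (hs : Small X Y p r) {e : ℤ × ℤ} (h1 : 2 * X d.1 ≤ e.1) (h2 : e.1 ≤ 2 * X (d.1 + 1))
    (h3 : 2 * Y d.2 ≤ e.2) (h4 : e.2 ≤ 2 * Y (d.2 + 1))
    (h5 : 2 * (X p.1 - r) ≤ e.1) (h6 : e.1 ≤ 2 * (X p.1 + r))
    (h7 : 2 * (Y p.2 - r) ≤ e.2) (h8 : e.2 ≤ 2 * (Y p.2 + r)) :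
    (d.1 = p.1 ∨ d.1 = p.1 - 1) ∧ (d.2 = p.2 ∨ d.2 = p.2 - 1) :=
  near_cell' hX hY hs (by omega) (by omega) (by omega) (by omega)

lemma dir0 {k : ℤ} (h : k % 4 = 0) : dir k = (1, 0) := by
  rcases dir_cases k with ⟨e, d⟩ | ⟨e, d⟩ | ⟨e, d⟩ | ⟨e, d⟩ <;> first | exact d | (exfalso; omega)

lemma dir1 {k : ℤ} (h : k % 4 = 1) : dir k = (0, 1) := by
  rcases dir_cases k with ⟨e, d⟩ | ⟨e, d⟩ | ⟨e, d⟩ | ⟨e, d⟩ <;> first | exact d | (exfalso; omega)

lemma dir2 {k : ℤ} (h : k % 4 = 2) : dir k = (-1, 0) := by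
  rcases dir_cases k with ⟨e, d⟩ | ⟨e, d⟩ | ⟨e, d⟩ | ⟨e, d⟩ <;> first | exact d | (exfalso; omega)

lemma dir3 {k : ℤ} (h : k % 4 = 3) : dir k = (0, -1) := by
  rcases dir_cases k with ⟨e, d⟩ | ⟨e, d⟩ | ⟨e, d⟩ | ⟨e, d⟩ <;> first | exact d | (exfalso; omega)

/-- The cells around a flat vertex. -/
lemma flatV_cells {n : ℕ} (h : FlatV P n) {a b : ℤ} (hab : P.vert n = (a, b)) :
    (((P.side n).2 % 4 = 0 ∧ (P.side n).1 = (a, b) ∧ (P.side (n - 1)).1 = (a - 1, b)) ∧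
      (a, b) ∈ P.Q ∧ (a - 1, b) ∈ P.Q ∧ (a, b - 1) ∉ P.Q ∧ (a - 1, b - 1) ∉ P.Q) ∨
    (((P.side n).2 % 4 = 1 ∧ (P.side n).1 = (a - 1, b) ∧ (P.side (n - 1)).1 = (a - 1, b - 1)) ∧
      (a - 1, b) ∈ P.Q ∧ (a - 1, b - 1) ∈ P.Q ∧ (a, b) ∉ P.Q ∧ (a, b - 1) ∉ P.Q) ∨
    (((P.side n).2 % 4 = 2 ∧ (P.side n).1 = (a - 1, b - 1) ∧ (P.side (n - 1)).1 = (a, b - 1)) ∧
      (a - 1, b - 1) ∈ P.Q ∧ (a, b - 1) ∈ P.Q ∧ (a - 1, b) ∉ P.Q ∧ (a, b) ∉ P.Q) ∨
    (((P.side n).2 % 4 = 3 ∧ (P.side n).1 = (a, b - 1) ∧ (P.side (n - 1)).1 = (a, b)) ∧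
      (a, b - 1) ∈ P.Q ∧ (a, b) ∈ P.Q ∧ (a - 1, b - 1) ∉ P.Q ∧ (a - 1, b) ∉ P.Q) := by
  obtain ⟨h1, -, h2⟩ := h
  obtain ⟨n, rfl⟩ : ∃ n', n = n' + 1 := ⟨n - 1, by omega⟩
  rw [Nat.add_sub_cancel] at h2 ⊢
  have e := P.side_succ n
  -- the cell
  have e1 : (P.side (n + 1)).1 = (P.side n).1 + dir (P.side n).2 := by
    rw [e] at h2 ⊢
    unfold nextSide at h2 ⊢
    split_ifs with c1 c2
    · rw [if_pos c1] at h2; simp only at h2; omega
    · rfl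
    · rw [if_neg c1, if_neg c2] at h2; simp only at h2; omega
  have s1 := side_cells (P.isSide (n + 1)) hab
  have hn := P.isSide n
  obtain ⟨q1, q2⟩ := hn
  rw [h2] at e1 q2
  have q3 : (P.side n).1 = (P.side (n + 1)).1 - dir (P.side (n + 1)).2 := by rw [e1]; abel
  rw [q3] at q1 q2 ⊢
  rcases s1 with ⟨k1, c1, c2, c3⟩ | ⟨k1, c1, c2, c3⟩ | ⟨k1, c1, c2, c3⟩ | ⟨k1, c1, c2, c3⟩
  · rw [c1, dir0 k1] at q1 ⊢
    rw [c1, dir0 k1, dir3 (k := (P.side (n + 1)).2 - 1) (by omega)] at q2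
    simp only [Prod.mk_sub_mk, Prod.mk_add_mk, sub_zero, add_zero, ← sub_eq_add_neg] at q1 q2 ⊢
    exact Or.inl ⟨⟨k1, trivial, trivial⟩, c2, q1, c3, q2⟩
  · rw [c1, dir1 k1] at q1 ⊢
    rw [c1, dir1 k1, dir0 (k := (P.side (n + 1)).2 - 1) (by omega)] at q2
    simp only [Prod.mk_sub_mk, Prod.mk_add_mk, sub_zero, add_zero, sub_add_cancel] at q1 q2 ⊢
    exact Or.inr (Or.inl ⟨⟨k1, trivial, trivial⟩, c2, q1, c3, q2⟩)
  · rw [c1, dir2 k1] at q1 ⊢
    rw [c1, dir2 k1, dir1 (k := (P.side (n + 1)).2 - 1) (by omega)] at q2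
    simp only [Prod.mk_sub_mk, Prod.mk_add_mk, sub_zero, add_zero, sub_neg_eq_add,
      sub_add_cancel] at q1 q2 ⊢
    exact Or.inr (Or.inr (Or.inl ⟨⟨k1, trivial, trivial⟩, c2, q1, c3, q2⟩))
  · rw [c1, dir3 k1] at q1 ⊢
    rw [c1, dir3 k1, dir2 (k := (P.side (n + 1)).2 - 1) (by omega)] at q2
    simp only [Prod.mk_sub_mk, Prod.mk_add_mk, sub_zero, add_zero, sub_neg_eq_add,
      sub_add_cancel, ← sub_eq_add_neg] at q1 q2 ⊢
    exact Or.inr (Or.inr (Or.inr ⟨⟨k1, trivial, trivial⟩, c2, q1, c3, q2⟩))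

set_option linter.unusedSimpArgs false in
/-- The sides near a flat vertex are the two sides at the vertex. -/
lemma near_side (hX : StrictMono X) (hY : StrictMono Y) {n : ℕ} (h : FlatV P n) {r : ℤ}
    (hs : Small X Y (P.vert n) r) {s : Cell × ℤ} (hsd : IsSide P.Q s) {e : ℤ × ℤ}
    (he : onSeg X Y s e) (h5 : 2 * (X (P.vert n).1 - r) ≤ e.1) (h6 : e.1 ≤ 2 * (X (P.vert n).1 + r))
    (h7 : 2 * (Y (P.vert n).2 - r) ≤ e.2) (h8 : e.2 ≤ 2 * (Y (P.vert n).2 + r)) :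
    Eqv s (P.side n) ∨ Eqv s (P.side (n - 1)) := by
  obtain ⟨⟨a, b⟩, hab⟩ : ∃ v : ℤ × ℤ, P.vert n = v := ⟨_, rfl⟩
  have hc := flatV_cells h hab
  have hk := h.2.2
  rw [hab] at hs h5 h6 h7 h8
  obtain ⟨⟨c1, c2⟩, k⟩ := s
  obtain ⟨⟨e1, e2⟩, ⟨e3, e4⟩, e5, e6, e7, e8⟩ := he
  have hn := near_cell hX hY hs e1 e2 e3 e4 h5 h6 h7 h8
  obtain ⟨⟨s1, s2⟩, s3, s4⟩ := hs
  obtain ⟨hq1, hq2⟩ := hsd
  simp only at hn h5 h6 h7 h8 e1 e2 e3 e4 e5 e6 e7 e8 hq1 hq2 s1 s2 s3 s4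
  have hX1 : X (a - 1) < X a := hX (by omega)
  have hX2 : X a < X (a + 1) := hX (by omega)
  have hY1 : Y (b - 1) < Y b := hY (by omega)
  have hY2 : Y b < Y (b + 1) := hY (by omega)
  have hsub1 : a - 1 + 1 = a := by ring
  have hsub2 : b - 1 + 1 = b := by ring
  unfold Eqv
  have hk4 : k % 4 = 0 ∨ k % 4 = 1 ∨ k % 4 = 2 ∨ k % 4 = 3 := by omega
  obtain ⟨hn1, hn2⟩ := hn
  rcases hc with ⟨⟨k1, d1, d2⟩, q1, q2, q3, q4⟩ | ⟨⟨k1, d1, d2⟩, q1, q2, q3, q4⟩ |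
    ⟨⟨k1, d1, d2⟩, q1, q2, q3, q4⟩ | ⟨⟨k1, d1, d2⟩, q1, q2, q3, q4⟩ <;>
  rcases hn1 with rfl | rfl <;> rcases hn2 with rfl | rfl <;>
  first
  | (exfalso; exact q3 hq1)
  | (exfalso; exact q4 hq1)
  | (rcases hk4 with hk4 | hk4 | hk4 | hk4
     · have := e5 hk4
       rw [dir3 (k := k - 1) (by omega)] at hq2
       simp only [Prod.mk_add_mk, add_zero, ← sub_eq_add_neg, hsub1, hsub2, sub_add_cancel] at hq2 this h5 h6 h7 h8
       first
       | (exfalso; exact hq2 q1)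
       | (exfalso; exact hq2 q2)
       | (exfalso; omega)
       | exact Or.inl ⟨d1.symm, by simp only; omega⟩
       | exact Or.inr ⟨d2.symm, by simp only; omega⟩
     · have := e6 hk4
       rw [dir0 (k := k - 1) (by omega)] at hq2
       simp only [Prod.mk_add_mk, add_zero, ← sub_eq_add_neg, hsub1, hsub2, sub_add_cancel] at hq2 this h5 h6 h7 h8
       first
       | (exfalso; exact hq2 q1)
       | (exfalso; exact hq2 q2)
       | (exfalso; omega)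
       | exact Or.inl ⟨d1.symm, by simp only; omega⟩
       | exact Or.inr ⟨d2.symm, by simp only; omega⟩
     · have := e7 hk4
       rw [dir1 (k := k - 1) (by omega)] at hq2
       simp only [Prod.mk_add_mk, add_zero, ← sub_eq_add_neg, hsub1, hsub2, sub_add_cancel] at hq2 this h5 h6 h7 h8
       first
       | (exfalso; exact hq2 q1)
       | (exfalso; exact hq2 q2)
       | (exfalso; omega)
       | exact Or.inl ⟨d1.symm, by simp only; omega⟩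
       | exact Or.inr ⟨d2.symm, by simp only; omega⟩
     · have := e8 hk4
       rw [dir2 (k := k - 1) (by omega)] at hq2
       simp only [Prod.mk_add_mk, add_zero, ← sub_eq_add_neg, hsub1, hsub2, sub_add_cancel] at hq2 this h5 h6 h7 h8
       first
       | (exfalso; exact hq2 q1)
       | (exfalso; exact hq2 q2)
       | (exfalso; omega)
       | exact Or.inl ⟨d1.symm, by simp only; omega⟩
       | exact Or.inr ⟨d2.symm, by simp only; omega⟩)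

/-- The sides of the wired arc are far from a flat vertex. -/
lemma wired_far (hX : StrictMono X) (hY : StrictMono Y) {n : ℕ} (h : FlatV P n) {r : ℤ}
    (hs : Small X Y (P.vert n) r) {n' : ℕ} (h1 : P.m ≤ n') (h2 : n' < P.N) {e : ℤ × ℤ}
    (he : onSeg X Y (P.side n') e)
    (h5 : 2 * (X (P.vert n).1 - r) ≤ e.1) (h6 : e.1 ≤ 2 * (X (P.vert n).1 + r))
    (h7 : 2 * (Y (P.vert n).2 - r) ≤ e.2) (h8 : e.2 ≤ 2 * (Y (P.vert n).2 + r)) : False := by
  have hn := h.2.1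
  rcases near_side hX hY h hs (P.isSide n') he h5 h6 h7 h8 with h3 | h3
  · have := P.inj n' h2 n (by omega) h3.1 h3.2
    omega
  · have := P.inj n' h2 (n - 1) (by omega) h3.1 h3.2
    omega

lemma WL_far (hX : StrictMono X) (hY : StrictMono Y) {n : ℕ} (h : FlatV P n) {r : ℤ}
    (hs : Small X Y (P.vert n) r) : ∀ e ∈ Pool.Agent.Q1.M5.WL P X Y,
    e ∉ Bx ((lv P X Y n).1 - r) ((lv P X Y n).1 + r) ((lv P X Y n).2 - r) ((lv P X Y n).2 + r) := by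
  intro e he he'
  unfold Pool.Agent.Q1.M5.WL at he
  rw [mem_biUnion] at he
  obtain ⟨n', h1, h2⟩ := he
  rw [mem_Ico] at h1
  rw [mem_Bx] at he'
  exact wired_far hX hY h hs h1.1 h1.2 (onSeg_of_sL h2) he'.1.1 he'.1.2 he'.2.1.1 he'.2.1.2

lemma TV_far (hX : StrictMono X) (hY : StrictMono Y) {n : ℕ} (h : FlatV P n) {r : ℤ}
    (hs : Small X Y (P.vert n) r) {v : ℤ × ℤ} (hv : TV P X Y v) : far (lv P X Y n) v (r + 1) := by
  obtain ⟨n', h1, h2, h3⟩ := hv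
  have h4 := onSeg_of_sV h3
  by_contra hf
  unfold far at hf
  rw [not_or, not_le, not_le, Int.lt_add_one_iff, Int.lt_add_one_iff, abs_le, abs_le] at hf
  unfold lv lpt at hf
  simp only at hf
  refine wired_far hX hY h hs h1 h2 h4 ?_ ?_ ?_ ?_ <;> unfold dbl <;> simp only <;> omega

lemma onCell_lv (hX : StrictMono X) (hY : StrictMono Y) {n : ℕ} (h : FlatV P n) :
    onCell X Y (P.side n).1 (P.side n).2 (lv P X Y n) := by
  obtain ⟨⟨a, b⟩, hab⟩ : ∃ v : ℤ × ℤ, P.vert n = v := ⟨_, rfl⟩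
  have hX1 : X (a - 1) < X a := hX (by omega)
  have hX2 : X a < X (a + 1) := hX (by omega)
  have hY1 : Y (b - 1) < Y b := hY (by omega)
  have hY2 : Y b < Y (b + 1) := hY (by omega)
  have hsub1 : a - 1 + 1 = a := by ring
  have hsub2 : b - 1 + 1 = b := by ring
  unfold lv lpt onCell inB
  rw [hab]
  rcases flatV_cells h hab with ⟨⟨k1, d1, d2⟩, -⟩ | ⟨⟨k1, d1, d2⟩, -⟩ |
    ⟨⟨k1, d1, d2⟩, -⟩ | ⟨⟨k1, d1, d2⟩, -⟩ <;> rw [d1] <;> simp only [hsub1, hsub2] <;>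
  refine ⟨⟨⟨by omega, by omega⟩, by omega, by omega⟩, fun h => ?_, fun h => ?_, fun h => ?_,
    fun h => ?_⟩ <;> first | trivial | (exfalso; omega)

/-- **The environment is flat around a flat vertex**, up to the mesh. -/
theorem flat_gs (hX : StrictMono X) (hY : StrictMono Y) {n : ℕ} (h : FlatV P n) {r : ℤ}
    (hs : Small X Y (P.vert n) r) :
    Flat (Sd (P.side n).2 (lv P X Y n)) (gs X Y P.Q) (Pool.Agent.Q1.M5.WL P X Y) r := by
  have hoc := onCell_lv hX hY h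
  refine ⟨thin_side hX.monotone hY.monotone (Subset.refl _) hoc ?_ (WL_far hX hY h hs), ?_⟩
  · intro d hd hb
    by_contra hc
    unfold cfar at hc
    rw [not_or, not_or, not_or, not_lt, not_lt, not_lt, not_lt] at hc
    obtain ⟨a1, a2, a3, a4⟩ := hc
    have h1 := near_cell' hX hY hs (d := d) a2 a1 a4 a3
    obtain ⟨⟨a, b⟩, hab⟩ : ∃ v : ℤ × ℤ, P.vert n = v := ⟨_, rfl⟩
    rw [hab] at h1
    obtain ⟨d1, d2⟩ := d
    simp only at h1
    obtain ⟨h1, h2⟩ := h1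
    unfold Beyond at hb
    rcases flatV_cells h hab with ⟨⟨k1, e1, e2⟩, q1, q2, q3, q4⟩ |
      ⟨⟨k1, e1, e2⟩, q1, q2, q3, q4⟩ | ⟨⟨k1, e1, e2⟩, q1, q2, q3, q4⟩ |
      ⟨⟨k1, e1, e2⟩, q1, q2, q3, q4⟩ <;> rw [e1] at hb <;>
    rcases h1 with rfl | rfl <;> rcases h2 with rfl | rfl <;> simp only at hb <;>
    first | exact q3 hd | exact q4 hd | omega
  · obtain ⟨⟨a, b⟩, hab⟩ : ∃ v : ℤ × ℤ, P.vert n = v := ⟨_, rfl⟩
    rw [hab] at hs
    obtain ⟨⟨s1, s2⟩, s3, s4⟩ := hs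
    simp only at s1 s2 s3 s4
    intro e he
    have hsub1 : a - 1 + 1 = a := by ring
    have hsub2 : b - 1 + 1 = b := by ring
    have hlv : lv P X Y n = (X a, Y b) := by unfold lv lpt; rw [hab]
    rw [hlv] at he
    rcases flatV_cells h hab with ⟨⟨k1, e1, e2⟩, q1, q2, q3, q4⟩ |
      ⟨⟨k1, e1, e2⟩, q1, q2, q3, q4⟩ | ⟨⟨k1, e1, e2⟩, q1, q2, q3, q4⟩ |
      ⟨⟨k1, e1, e2⟩, q1, q2, q3, q4⟩
    · have : Sd (P.side n).2 (X a, Y b) = sB (X a, Y b) := by unfold Sd; rw [if_pos k1]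
      rw [this, HB_B, mem_Bx] at he
      simp only at he
      rcases le_total e.1 (2 * X a) with h1 | h1
      · refine gcell_sub_gs q2 ?_
        unfold gcell; rw [mem_Bx]; simp only [hsub1]; omega
      · refine gcell_sub_gs q1 ?_
        unfold gcell; rw [mem_Bx]; simp only; omega
    · have : Sd (P.side n).2 (X a, Y b) = sR (X a, Y b) := by
        unfold Sd; rw [if_neg (by omega), if_pos k1]
      rw [this, HB_R, mem_Bx] at he
      simp only at he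
      rcases le_total e.2 (2 * Y b) with h1 | h1
      · refine gcell_sub_gs q2 ?_
        unfold gcell; rw [mem_Bx]; simp only [hsub1, hsub2]; omega
      · refine gcell_sub_gs q1 ?_
        unfold gcell; rw [mem_Bx]; simp only [hsub1]; omega
    · have : Sd (P.side n).2 (X a, Y b) = sT (X a, Y b) := by
        unfold Sd; rw [if_neg (by omega), if_neg (by omega), if_pos k1]
      rw [this, HB_T, mem_Bx] at he
      simp only at he
      rcases le_total e.1 (2 * X a) with h1 | h1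
      · refine gcell_sub_gs q1 ?_
        unfold gcell; rw [mem_Bx]; simp only [hsub1, hsub2]; omega
      · refine gcell_sub_gs q2 ?_
        unfold gcell; rw [mem_Bx]; simp only [hsub2]; omega
    · have : Sd (P.side n).2 (X a, Y b) = Pool.Agent.H49.Q1.sL (X a, Y b) := by
        unfold Sd; rw [if_neg (by omega), if_neg (by omega), if_neg (by omega)]
      rw [this, HB_L, mem_Bx] at he
      simp only at he
      rcases le_total e.2 (2 * Y b) with h1 | h1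
      · refine gcell_sub_gs q1 ?_
        unfold gcell; rw [mem_Bx]; simp only [hsub2]; omega
      · refine gcell_sub_gs q2 ?_
        unfold gcell; rw [mem_Bx]; simp only; omega

/-- The same with the random labels of the domain. -/
theorem flat_EL (hX : StrictMono X) (hY : StrictMono Y) {n : ℕ} (h : FlatV P n) {r : ℤ} (hr : 0 ≤ r)
    (hs : Small X Y (P.vert n) r) :
    Flat (Sd (P.side n).2 (lv P X Y n)) (EL P X Y) (Pool.Agent.Q1.M5.WL P X Y) r := by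
  have h1 := flat_gs hX hY h hs
  refine ⟨h1.1.anti sdiff_subset (Subset.refl _), ?_⟩
  intro e he
  unfold EL
  rw [Finset.mem_sdiff]
  refine ⟨h1.2 he, fun h2 => ?_⟩
  exact (h1.1 e (HB_sub_FB _ hr he)).2 h2

lemma TV_out (hX : StrictMono X) (hY : StrictMono Y) {n : ℕ} (h : FlatV P n) {r : ℤ}
    (hs : Small X Y (P.vert n) r) (v : ℤ × ℤ) (hv : TV P X Y v) :
    ¬ VI (Sd (P.side n).2 (lv P X Y n)) r v := fun h1 =>
  VI_far h1 (far_mono (by omega) (TV_far hX hY h hs hv))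

/-- Different boundary vertices are far from each other. -/
lemma lv_far (hX : StrictMono X) (hY : StrictMono Y) {n n' : ℕ} (hn : n < P.N) (hn' : n' < P.N)
    (hne : n ≠ n') {r : ℤ} (hs : Small X Y (P.vert n) r) :
    far (lv P X Y n) (lv P X Y n') (r + 1) := by
  have hv : P.vert n ≠ P.vert n' := by
    intro h
    have := tail_inj P.good (P.isSide n) (P.isSide n') h
    exact hne (P.inj n hn n' hn' this.1 this.2)
  obtain ⟨⟨s1, s2⟩, s3, s4⟩ := hs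
  unfold lv lpt far
  simp only
  by_contra hc
  rw [not_or, not_le, not_le, Int.lt_add_one_iff, Int.lt_add_one_iff, abs_le, abs_le] at hc
  apply hv
  have h1 : X (P.vert n').1 < X ((P.vert n).1 + 1) := by omega
  have h2 : X ((P.vert n).1 - 1) < X (P.vert n').1 := by omega
  have h3 : Y (P.vert n').2 < Y ((P.vert n).2 + 1) := by omega
  have h4 : Y ((P.vert n).2 - 1) < Y (P.vert n').2 := by omega
  rw [hX.lt_iff_lt] at h1 h2
  rw [hY.lt_iff_lt] at h3 h4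
  exact Prod.ext (by omega) (by omega)

/-! ### Sliding along the side -/

lemma Sd_slide (k : ℤ) (p : ℤ × ℤ) (l : ℤ) :
    ∃ y : ℤ, |y| = |l| ∧ (Sd k p).g (0, y) = p + l • dir k := by
  rcases Sd_cases k p with ⟨hk, h⟩ | ⟨hk, h⟩ | ⟨hk, h⟩ | ⟨hk, h⟩ <;> rw [h]
  · refine ⟨l, rfl, ?_⟩
    rw [dir0 hk]
    simp only [sB, comp, syT, syY, syD]
    refine Prod.ext ?_ ?_ <;> simp [add_comm]
  · refine ⟨l, rfl, ?_⟩
    rw [dir1 hk]
    simp only [sR, syT]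
    refine Prod.ext ?_ ?_ <;> simp [add_comm]
  · refine ⟨-l, abs_neg l, ?_⟩
    rw [dir2 hk]
    simp only [sT, comp, syT, syD]
    refine Prod.ext ?_ ?_ <;> simp [add_comm]
  · refine ⟨-l, abs_neg l, ?_⟩
    rw [dir3 hk]
    simp only [Pool.Agent.H49.Q1.sL, comp, syT, syX]
    refine Prod.ext ?_ ?_ <;> simp [add_comm]

lemma Sd_Flat {k : ℤ} {p : ℤ × ℤ} {l i r : ℤ} (h : |l| + i ≤ r) {E W : Finset (ℤ × ℤ)}
    (hF : Flat (Sd k p) E W r) : Flat (Sd k (p + l • dir k)) E W i := by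
  have hl := abs_le.1 (le_refl |l|)
  have hFB : FB (Sd k (p + l • dir k)) i ⊆ FB (Sd k p) r := by
    rw [FB_Sd, FB_Sd]
    rcases dir_cases k with ⟨hk, e⟩ | ⟨hk, e⟩ | ⟨hk, e⟩ | ⟨hk, e⟩ <;> rw [e] <;>
    simp only [Prod.fst_add, Prod.snd_add, Prod.smul_mk, smul_eq_mul, mul_one, mul_zero,
      mul_neg] <;> exact Bx_sub (by omega) (by omega) (by omega) (by omega)
  have hHB : HB (Sd k (p + l • dir k)) i ⊆ HB (Sd k p) r ∧
      ∀ e ∈ FB (Sd k (p + l • dir k)) i, e ∈ HB (Sd k p) r →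
        e ∈ HB (Sd k (p + l • dir k)) i := by
    rcases Sd_cases k p with ⟨hk, h1⟩ | ⟨hk, h1⟩ | ⟨hk, h1⟩ | ⟨hk, h1⟩ <;>
    rcases Sd_cases k (p + l • dir k) with ⟨hk', h2⟩ | ⟨hk', h2⟩ | ⟨hk', h2⟩ | ⟨hk', h2⟩ <;>
    first
    | (exfalso; omega)
    | (rw [FB_Sd, h1, h2]
       first | rw [dir0 hk] | rw [dir1 hk] | rw [dir2 hk] | rw [dir3 hk]
       first | rw [HB_B, HB_B] | rw [HB_R, HB_R] | rw [HB_T, HB_T] | rw [HB_L, HB_L]
       simp only [Prod.fst_add, Prod.snd_add, Prod.smul_mk, smul_eq_mul, mul_one, mul_zero,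
         mul_neg, add_zero]
       refine ⟨Bx_sub (by omega) (by omega) (by omega) (by omega), fun e he he' => ?_⟩
       rw [mem_Bx] at he he' ⊢
       omega)
  refine ⟨fun e he => ?_, hHB.1.trans hF.2⟩
  obtain ⟨h1, h2⟩ := hF.1 e (hFB he)
  exact ⟨fun h3 => hHB.2 e he (h1 h3), h2⟩

end Pool.Agent.H52.Q1
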