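import Mathlib
import Pool.Agent.H52.Q1.Side

set_option autoImplicit false
open Finset Filter Topology

/-! One-point function near flat vertices of the free arc of a grid polygon: 2.5(d) and two-sided
bounds of order `R ^ (-1/3)`, in the interface of `Pool/Agent/Q1/M5/Defs.lean`. -/

namespace Pool.Agent.H52.Q1

open Pool.Agent.H75.Perc hiding WL hh
open Pool.Agent.H99.NC Pool.Agent.H81.NC Pool.Agent.Q1.M4 Pool.Agent.Q1.M5
open Pool.Agent.H49.Q1 hiding sL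

variable {x y : ℤ → ℝ} {R : ℕ → ℝ} {X Y : ℕ → ℤ → ℤ}

/-- Lower bound of the meshes. -/
lemma gapX_ev (hA : Approx x y R X Y) {i : ℤ} {c : ℝ} (hc : c < x (i + 1) - x i) :
    ∀ᶠ j in atTop, c * R j < X j (i + 1) - X j i := by
  have h1 := (hA.X_lim (i + 1)).sub (hA.X_lim i)
  filter_upwards [h1.eventually (lt_mem_nhds hc), hA.R_top.eventually_gt_atTop 0] with j h2 h3
  rw [← sub_div, lt_div_iff₀ h3] at h2
  exact h2

lemma gapX_ev' (hA : Approx x y R X Y) {i : ℤ} {c : ℝ} (hc : x (i + 1) - x i < c) :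
    ∀ᶠ j in atTop, (X j (i + 1) - X j i : ℝ) < c * R j := by
  have h1 := (hA.X_lim (i + 1)).sub (hA.X_lim i)
  filter_upwards [h1.eventually (gt_mem_nhds hc), hA.R_top.eventually_gt_atTop 0] with j h2 h3
  rw [← sub_div, div_lt_iff₀ h3] at h2
  exact h2

lemma gapY_ev (hA : Approx x y R X Y) {i : ℤ} {c : ℝ} (hc : c < y (i + 1) - y i) :
    ∀ᶠ j in atTop, c * R j < Y j (i + 1) - Y j i := by
  have h1 := (hA.Y_lim (i + 1)).sub (hA.Y_lim i)
  filter_upwards [h1.eventually (lt_mem_nhds hc), hA.R_top.eventually_gt_atTop 0] with j h2 h3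
  rw [← sub_div, lt_div_iff₀ h3] at h2
  exact h2

lemma gapY_ev' (hA : Approx x y R X Y) {i : ℤ} {c : ℝ} (hc : y (i + 1) - y i < c) :
    ∀ᶠ j in atTop, (Y j (i + 1) - Y j i : ℝ) < c * R j := by
  have h1 := (hA.Y_lim (i + 1)).sub (hA.Y_lim i)
  filter_upwards [h1.eventually (gt_mem_nhds hc), hA.R_top.eventually_gt_atTop 0] with j h2 h3
  rw [← sub_div, div_lt_iff₀ h3] at h2
  exact h2

/-- The meshes around a grid vertex are at least `c₀ R`. -/
theorem small_ev (hx : StrictMono x) (hy : StrictMono y) (p : ℤ × ℤ) :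
    ∃ c0 : ℝ, 0 < c0 ∧ ∀ (R : ℕ → ℝ) (X Y : ℕ → ℤ → ℤ), Approx x y R X Y →
      ∀ᶠ j in atTop, ∀ r : ℤ, (r : ℝ) ≤ c0 * R j → Small (X j) (Y j) p r := by
  have h1 : 0 < x (p.1 + 1) - x p.1 := sub_pos.2 (hx (by omega))
  have h2 : 0 < x (p.1 - 1 + 1) - x (p.1 - 1) := sub_pos.2 (hx (by omega))
  have h3 : 0 < y (p.2 + 1) - y p.2 := sub_pos.2 (hy (by omega))
  have h4 : 0 < y (p.2 - 1 + 1) - y (p.2 - 1) := sub_pos.2 (hy (by omega))
  obtain ⟨c0, hc0, hc⟩ := exists_between (lt_min (lt_min h1 h2) (lt_min h3 h4))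
  rw [lt_min_iff, lt_min_iff, lt_min_iff] at hc
  refine ⟨c0, hc0, fun R X Y hA => ?_⟩
  filter_upwards [gapX_ev hA hc.1.1, gapX_ev hA hc.1.2, gapY_ev hA hc.2.1,
    gapY_ev hA hc.2.2] with j g1 g2 g3 g4 r hr
  rw [sub_add_cancel] at g2 g4
  refine ⟨⟨?_, ?_⟩, ?_, ?_⟩
  · exact_mod_cast hr.trans_lt g1
  · exact_mod_cast hr.trans_lt g2
  · exact_mod_cast hr.trans_lt g3
  · exact_mod_cast hr.trans_lt g4

/-- The grids are meshes with bounded ratios. -/
theorem mesh_ev (hx : StrictMono x) (hy : StrictMono y) (Q : Finset Cell) :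
    ∃ K : ℕ, ∃ μ : ℝ, 0 < μ ∧ ∀ (R : ℕ → ℝ) (X Y : ℕ → ℤ → ℤ), Approx x y R X Y →
      ∀ᶠ j in atTop, Mesh (X j) (Y j) Q ⌊μ * R j⌋ K := by
  -- uniform bounds
  have key : ∃ μ M : ℝ, 0 < μ ∧ ∀ c ∈ Q, (μ < x (c.1 + 1) - x c.1 ∧ x (c.1 + 1) - x c.1 < M) ∧
      (μ < y (c.2 + 1) - y c.2 ∧ y (c.2 + 1) - y c.2 < M) := by
    induction Q using Finset.induction_on with
    | empty => exact ⟨1, 1, one_pos, by simp⟩
    | insert a s ha ih =>
      obtain ⟨μ, M, hμ, h⟩ := ih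
      have h1 : 0 < x (a.1 + 1) - x a.1 := sub_pos.2 (hx (by omega))
      have h2 : 0 < y (a.2 + 1) - y a.2 := sub_pos.2 (hy (by omega))
      obtain ⟨μ', hμ', hl⟩ := exists_between (lt_min hμ (lt_min h1 h2))
      rw [lt_min_iff, lt_min_iff] at hl
      refine ⟨μ', max M (max (x (a.1 + 1) - x a.1 + 1) (y (a.2 + 1) - y a.2 + 1)), hμ', ?_⟩
      intro c hc
      rw [mem_insert] at hc
      rcases hc with rfl | hc
      · refine ⟨⟨hl.2.1, lt_max_of_lt_right (lt_max_of_lt_left (by linarith))⟩, hl.2.2,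
          lt_max_of_lt_right (lt_max_of_lt_right (by linarith))⟩
      · obtain ⟨⟨q1, q2⟩, q3, q4⟩ := h c hc
        exact ⟨⟨hl.1.trans q1, lt_max_of_lt_left q2⟩, hl.1.trans q3, lt_max_of_lt_left q4⟩
  obtain ⟨μ, M, hμ, h⟩ := key
  obtain ⟨K, hK⟩ := exists_nat_ge (2 * M / μ)
  refine ⟨K, μ, hμ, fun R X Y hA => ?_⟩
  have hall : ∀ᶠ j in atTop, ∀ c ∈ Q,
      ((μ * R j < X j (c.1 + 1) - X j c.1 ∧ (X j (c.1 + 1) - X j c.1 : ℝ) < M * R j) ∧
      (μ * R j < Y j (c.2 + 1) - Y j c.2 ∧ (Y j (c.2 + 1) - Y j c.2 : ℝ) < M * R j)) := by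
    rw [Filter.eventually_all_finset]
    intro c hc
    obtain ⟨⟨q1, q2⟩, q3, q4⟩ := h c hc
    filter_upwards [gapX_ev hA q1, gapX_ev' hA q2, gapY_ev hA q3, gapY_ev' hA q4] with j a b c d
    exact ⟨⟨a, b⟩, c, d⟩
  filter_upwards [hall, hA.R_top.eventually_ge_atTop (2 / μ)] with j h1 h2
  have h3 : 2 ≤ μ * R j := by
    rw [div_le_iff₀ hμ] at h2; linarith
  have hf1 : (⌊μ * R j⌋ : ℝ) ≤ μ * R j := Int.floor_le _
  have hf2 : μ * R j < ⌊μ * R j⌋ + 1 := Int.lt_floor_add_one _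
  have hf3 : μ * R j / 2 ≤ ⌊μ * R j⌋ := by linarith
  have hf4 : M * R j ≤ K * ⌊μ * R j⌋ := by
    have hR : 0 < R j := by
      by_contra hn
      have : μ * R j ≤ 0 := mul_nonpos_of_nonneg_of_nonpos hμ.le (not_lt.1 hn)
      linarith
    have e1 : M * R j = (2 * M / μ) * (μ * R j / 2) := by field_simp
    rw [e1]
    have h5 : (0 : ℝ) ≤ μ * R j / 2 := by linarith
    exact (mul_le_mul_of_nonneg_right hK h5).trans
      (mul_le_mul_of_nonneg_left hf3 (by positivity))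
  refine ⟨?_, ?_⟩
  · have : (1 : ℝ) ≤ ⌊μ * R j⌋ := by linarith
    exact_mod_cast this
  · intro c hc
    obtain ⟨⟨q1, q2⟩, q3, q4⟩ := h1 c hc
    refine ⟨⟨?_, ?_⟩, ?_, ?_⟩
    · exact_mod_cast (hf1.trans q1.le)
    · exact_mod_cast (q2.le.trans hf4)
    · exact_mod_cast (hf1.trans q3.le)
    · exact_mod_cast (q4.le.trans hf4)

/-! ### 2.5(d) -/

/-- **The one-point function is almost constant near a flat vertex.** -/
theorem hh_ratio (P : PType) (hx : StrictMono x) (hy : StrictMono y) {n : ℕ} (hn : FlatV P n) :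
    ∃ C c r0 : ℝ, 0 < C ∧ 0 < c ∧ 0 < r0 ∧ ∀ (R : ℕ → ℝ) (X Y : ℕ → ℤ → ℤ), App x y R X Y →
      ∀ ρ : ℝ, 0 < ρ → ρ ≤ r0 → ∀ᶠ j in atTop, ∀ l : ℤ, |(l : ℝ)| ≤ ρ * R j →
        |hh P (X j) (Y j) (lv P (X j) (Y j) n + l • dir (P.side n).2) -
          hh P (X j) (Y j) (lv P (X j) (Y j) n)| ≤
        C * ρ ^ c * hh P (X j) (Y j) (lv P (X j) (Y j) n) := by
  obtain ⟨C, c, hc, hC, h⟩ := ratio
  obtain ⟨c0, hc0, hs⟩ := small_ev hx hy (P.vert n)
  refine ⟨C * (2 / c0) ^ c, c, c0 / 20, by positivity, hc, by positivity, ?_⟩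
  intro R X Y hA ρ hρ hρ0
  filter_upwards [hs R X Y hA.app, hA.mono, hA.app.R_top.eventually_ge_atTop (1 / ρ),
    hA.app.R_top.eventually_ge_atTop (20 / c0)] with j h1 h2 h3 h4
  intro l hl
  rw [div_le_iff₀ hρ] at h3
  rw [div_le_iff₀ hc0] at h4
  have hR : 0 < R j := by
    by_contra hn
    have : R j * c0 ≤ 0 := mul_nonpos_of_nonpos_of_nonneg (not_lt.1 hn) hc0.le
    linarith
  set N : ℕ := ⌊c0 * R j⌋₊ with hN
  have hN1 : (N : ℝ) ≤ c0 * R j := Nat.floor_le (by positivity)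
  have hN2 : c0 * R j < N + 1 := Nat.lt_floor_add_one _
  obtain ⟨z, hz1, hz2⟩ := Sd_slide (P.side n).2 (lv P (X j) (Y j) n) l
  set r : ℕ := max 1 l.natAbs with hr
  have hr1 : 1 ≤ r := le_max_left _ _
  have hzr : |z| ≤ r := by
    rw [hz1, hr]
    have : |l| = (l.natAbs : ℤ) := by simp
    rw [this]
    exact_mod_cast le_max_right _ _
  have hrR : (r : ℝ) ≤ ρ * R j := by
    rw [hr]
    push_cast
    refine max_le (by linarith) ?_
    have : ((l.natAbs : ℕ) : ℝ) = |(l : ℝ)| := by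
      rw [Nat.cast_natAbs]; simp
    rw [this]; exact hl
  have h9 : 9 * r ≤ N := by
    have h5 : (9 * r : ℝ) ≤ N := by
      have h6 : ρ * R j ≤ c0 / 20 * R j := mul_le_mul_of_nonneg_right hρ0 hR.le
      nlinarith
    exact_mod_cast h5
  have hS : Small (X j) (Y j) (P.vert n) (N : ℤ) := h1 _ (by exact_mod_cast hN1)
  have hF := flat_gs h2.1 h2.2 hn hS
  have key := h (Sd (P.side n).2 (lv P (X j) (Y j) n)) r N z hr1 hzr h9 (gs (X j) (Y j) P.Q)
    (Pool.Agent.Q1.M5.WL P (X j) (Y j)) (TV P (X j) (Y j)) hF (TV_out h2.1 h2.2 hn hS)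
  rw [hz2, Sd_g, ← hh_eq, ← hh_eq] at key
  refine key.trans ?_
  refine mul_le_mul_of_nonneg_right ?_ (Pr_nonneg _ _)
  rw [mul_assoc]
  refine mul_le_mul_of_nonneg_left ?_ (by linarith)
  rw [← Real.mul_rpow (by positivity) hρ.le]
  refine Real.rpow_le_rpow (by positivity) ?_ hc.le
  have hN0 : (0 : ℝ) < N := by
    have : 1 ≤ N := by omega
    exact_mod_cast this
  rw [div_le_iff₀ hN0]
  have hN3 : c0 * R j / 2 ≤ N := by linarith
  calc (r : ℝ) ≤ ρ * R j := hrR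
    _ = 2 / c0 * ρ * (c0 * R j / 2) := by field_simp
    _ ≤ 2 / c0 * ρ * N := mul_le_mul_of_nonneg_left hN3 (by positivity)

/-! ### Two-sided bounds -/

lemma lk_of_conn {Q : Finset Cell} (h : Conn4 (Q : Set Cell)) {c d : Cell} (hc : c ∈ Q)
    (hd : d ∈ Q) : Lk Q c d := by
  have h1 := h c (by exact_mod_cast hc) d (by exact_mod_cast hd)
  clear hd
  induction h1 with
  | refl => exact Lk.refl _ _
  | @tail a b hab hb ih =>
    have ha : a ∈ Q := ih.mem hc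
    obtain ⟨⟨k, hk⟩, hb'⟩ := hb
    refine ih.trans (Relation.ReflTransGen.single ⟨ha, by exact_mod_cast hb', ?_⟩)
    rw [hk, add_sub_cancel_left]
    exact isUnit4_dir k

lemma sideIn_TV (P : PType) (X Y : ℤ → ℤ) : SideIn X Y (P.side P.m).1 (TV P X Y) := by
  have h : ∀ v, sV X Y (P.side P.m) v → TV P X Y v := fun v hv => ⟨P.m, le_rfl, P.hmN, hv⟩
  unfold sV onCell at h
  unfold SideIn
  have h4 : (P.side P.m).2 % 4 = 0 ∨ (P.side P.m).2 % 4 = 1 ∨ (P.side P.m).2 % 4 = 2 ∨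
    (P.side P.m).2 % 4 = 3 := by omega
  rcases h4 with hk | hk | hk | hk
  · right; right; left
    intro v h1 h2
    exact h v ⟨h1, fun _ => h2, fun h => by omega, fun h => by omega, fun h => by omega⟩
  · right; left
    intro v h1 h2
    exact h v ⟨h1, fun h => by omega, fun _ => h2, fun h => by omega, fun h => by omega⟩
  · right; right; right
    intro v h1 h2
    exact h v ⟨h1, fun h => by omega, fun h => by omega, fun _ => h2, fun h => by omega⟩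
  · left
    intro v h1 h2
    exact h v ⟨h1, fun h => by omega, fun h => by omega, fun h => by omega, fun _ => h2⟩

/-- A point of the side after a flat vertex at distance `i` from the vertex. -/
lemma onSide_slide {P : PType} {X Y : ℤ → ℤ} (hX : StrictMono X) (hY : StrictMono Y) {n : ℕ}
    (h : FlatV P n) {i r : ℤ} (hs : Small X Y (P.vert n) r) (hi : 0 ≤ i) (hir : 2 * i ≤ r) :
    OnSide X Y (P.side n).1 i (lv P X Y n + i • dir (P.side n).2)
      (Sd (P.side n).2 (lv P X Y n + i • dir (P.side n).2)) := by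
  obtain ⟨⟨a, b⟩, hab⟩ : ∃ v : ℤ × ℤ, P.vert n = v := ⟨_, rfl⟩
  rw [hab] at hs
  obtain ⟨⟨s1, s2⟩, s3, s4⟩ := hs
  have hX1 : X (a - 1) < X a := hX (by omega)
  have hX2 : X a < X (a + 1) := hX (by omega)
  have hY1 : Y (b - 1) < Y b := hY (by omega)
  have hY2 : Y b < Y (b + 1) := hY (by omega)
  have hsub1 : a - 1 + 1 = a := by ring
  have hsub2 : b - 1 + 1 = b := by ring
  have hlv : lv P X Y n = (X a, Y b) := by unfold lv lpt; rw [hab]
  simp only at s1 s2 s3 s4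
  rcases flatV_cells h hab with ⟨⟨k1, d1, d2⟩, -⟩ | ⟨⟨k1, d1, d2⟩, -⟩ |
    ⟨⟨k1, d1, d2⟩, -⟩ | ⟨⟨k1, d1, d2⟩, -⟩ <;>
  (first | rw [dir0 k1] | rw [dir1 k1] | rw [dir2 k1] | rw [dir3 k1]) <;> rw [hlv, d1] <;>
  apply onSide_Sd <;> (try unfold onCell inB) <;>
  simp only [Prod.fst_add, Prod.snd_add, Prod.smul_mk, smul_eq_mul, mul_one, mul_zero,
      mul_neg, add_zero, hsub1, hsub2] <;>
  first
  | (intro hk; constructor <;> omega)
  | (refine ⟨⟨⟨by omega, by omega⟩, by omega, by omega⟩, fun hk => ?_, fun hk => ?_, fun hk => ?_,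
      fun hk => ?_⟩ <;> first | trivial | (exfalso; omega))

/-- **Lower bound** of the one-point function at a flat vertex. -/
theorem hh_lower (P : PType) (hx : StrictMono x) (hy : StrictMono y) {n : ℕ} (hn : FlatV P n) :
    ∃ c : ℝ, 0 < c ∧ ∀ (R : ℕ → ℝ) (X Y : ℕ → ℤ → ℤ), App x y R X Y → ∀ᶠ j in atTop,
      c * R j ^ (-(1 / 3) : ℝ) ≤ hh P (X j) (Y j) (lv P (X j) (Y j) n) := by
  obtain ⟨c0, hc0, hs⟩ := small_ev hx hy (P.vert n)
  obtain ⟨K, μ, hμ, hm⟩ := mesh_ev hx hy P.Q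
  obtain ⟨m, hm'⟩ := exists_nat_ge (18 * μ / c0)
  obtain ⟨c1, hc1, h1⟩ := T2_lower K m P.Q.card
  obtain ⟨c2, hc2, -, h2⟩ := ph_lower
  obtain ⟨C3, hC3, h3⟩ := harnack
  refine ⟨c1 * (c2 * (c0 / 9) ^ (-(1 / 3) : ℝ)) / C3, by positivity, ?_⟩
  intro R X Y hA
  filter_upwards [hs R X Y hA.app, hA.mono, hm R X Y hA.app,
    hA.app.R_top.eventually_ge_atTop (18 / c0)] with j e1 e2 e3 e4
  rw [div_le_iff₀ hc0] at e4
  have hR : 0 < R j := by
    by_contra hn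
    have : R j * c0 ≤ 0 := mul_nonpos_of_nonpos_of_nonneg (not_lt.1 hn) hc0.le
    linarith
  set i : ℕ := ⌊c0 * R j / 9⌋₊ with hi
  have hi1 : (i : ℝ) ≤ c0 * R j / 9 := Nat.floor_le (by positivity)
  have hi2 : c0 * R j / 9 < i + 1 := Nat.lt_floor_add_one _
  have hi0 : 1 ≤ i := by
    have : (1 : ℝ) < i + 1 := by linarith
    have : (0 : ℝ) < i := by linarith
    exact_mod_cast this
  have hS : Small (X j) (Y j) (P.vert n) (9 * i) := e1 _ (by push_cast; linarith)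
  have hF := flat_gs e2.1 e2.2 hn hS
  have hv : (9 : ℤ) * i = 9 * (i : ℤ) := rfl
  set p := lv P (X j) (Y j) n with hp
  set k := (P.side n).2 with hk
  obtain ⟨z, hz1, hz2⟩ := Sd_slide k p (i : ℤ)
  have hiabs : |(i : ℤ)| = i := abs_of_nonneg (by positivity)
  -- Harnack
  have g1 := h3 (S := Sd k p) (j := i) (y := z) hi0 (by rw [hz1, hiabs])
    (E := gs (X j) (Y j) P.Q) (W := Pool.Agent.Q1.M5.WL P (X j) (Y j))
    (hF.mono_k (by omega)) (J := TV P (X j) (Y j)) (fun v hv' =>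
      TV_out e2.1 e2.2 hn (r := 8 * i) (by
        obtain ⟨⟨s1, s2⟩, s3, s4⟩ := hS
        exact ⟨⟨by omega, by omega⟩, by omega, by omega⟩) v hv')
  rw [hz2, Sd_g] at g1
  -- lower bound at the shifted point
  have hos := onSide_slide e2.1 e2.2 hn hS (i := (i : ℤ)) (by omega) (by omega)
  have hF' : Flat (Sd k (p + (i : ℤ) • dir k)) (gs (X j) (Y j) P.Q)
      (Pool.Agent.Q1.M5.WL P (X j) (Y j)) (4 * i) := Sd_Flat (r := 9 * i) (by omega) hF
  have hcT : (P.side P.m).1 ∈ P.Q := (P.isSide P.m).1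
  have hc0' : (P.side n).1 ∈ P.Q := (P.isSide n).1
  have hfar : ∀ v, TV P (X j) (Y j) v → ¬ VI (Sd k (p + (i : ℤ) • dir k)) (4 * i) v := by
    intro v hv' hvi
    have f1 := TV_far e2.1 e2.2 hn hS hv'
    have f2 := VI_far hvi
    unfold far at f1 f2
    rw [not_or, not_le, not_le, abs_lt, abs_lt] at f2
    rw [← hp] at f1
    rcases dir_cases k with ⟨-, e⟩ | ⟨-, e⟩ | ⟨-, e⟩ | ⟨-, e⟩ <;> rw [e] at f2 <;>
    simp only [Prod.fst_add, Prod.snd_add, Prod.smul_mk, smul_eq_mul, mul_one, mul_zero,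
      mul_neg, add_zero] at f2 <;>
    rcases f1 with f1 | f1 <;> rw [le_abs] at f1 <;> omega
  have hwm : ⌊μ * R j⌋ ≤ m * (i : ℤ) := by
    have t1 : (⌊μ * R j⌋ : ℝ) ≤ μ * R j := Int.floor_le _
    have t2 : c0 * R j / 18 ≤ i := by linarith
    have t3 : μ * R j ≤ m * (i : ℝ) := by
      have e : μ * R j = (18 * μ / c0) * (c0 * R j / 18) := by field_simp
      rw [e]
      exact (mul_le_mul_of_nonneg_right hm' (by positivity)).trans
        (mul_le_mul_of_nonneg_left t2 (by positivity))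
    exact_mod_cast t1.trans t3
  have g2 := h1 e3 le_rfl (E := gs (X j) (Y j) P.Q) (W := Pool.Agent.Q1.M5.WL P (X j) (Y j))
    (Subset.refl _) hc0' (lk_of_conn P.good.conn hc0' hcT) hi0 hwm hos hF'
    (sideIn_TV P (X j) (Y j)) hfar
  rw [← hh_eq] at g1 g2
  rw [← hh_eq] at g1
  have g3 := h2 i (by exact_mod_cast hi0)
  have g4 : (c0 / 9) ^ (-(1 / 3) : ℝ) * R j ^ (-(1 / 3) : ℝ) ≤ ((i : ℤ) : ℝ) ^ (-(1 / 3) : ℝ) := by
    rw [← Real.mul_rpow (by positivity) hR.le]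
    refine Real.rpow_le_rpow_of_nonpos (by exact_mod_cast hi0) ?_ (by norm_num)
    push_cast
    linarith
  have hC0 : 0 < C3 := by linarith
  rw [div_mul_eq_mul_div, div_le_iff₀ hC0, mul_comm _ C3]
  refine le_trans ?_ (g2.trans g1)
  rw [mul_assoc]
  refine mul_le_mul_of_nonneg_left ?_ hc1.le
  rw [mul_assoc]
  exact (mul_le_mul_of_nonneg_left g4 hc2.le).trans g3

/-- **Upper bound** of the `k`-point function at flat vertices. -/
theorem kpt_upper (P : PType) (hx : StrictMono x) (hy : StrictMono y) (s : Finset ℕ)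
    (hn : ∀ n ∈ s, FlatV P n) :
    ∃ C : ℝ, 0 < C ∧ ∀ (R : ℕ → ℝ) (X Y : ℕ → ℤ → ℤ), App x y R X Y → ∀ᶠ j in atTop,
      Pr (EL P (X j) (Y j)) (fun ω => ∀ n ∈ s, CT P (X j) (Y j) (lv P (X j) (Y j) n) ω) ≤
        (C * R j ^ (-(1 / 3) : ℝ)) ^ s.card := by
  obtain ⟨c0, hc0, hs⟩ : ∃ c0 : ℝ, 0 < c0 ∧ ∀ n ∈ s, ∀ (R : ℕ → ℝ) (X Y : ℕ → ℤ → ℤ),
      Approx x y R X Y →
      ∀ᶠ j in atTop, ∀ r : ℤ, (r : ℝ) ≤ c0 * R j → Small (X j) (Y j) (P.vert n) r := by
    clear hn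
    induction s using Finset.induction_on with
    | empty => exact ⟨1, one_pos, by simp⟩
    | insert a s ha ih =>
      obtain ⟨c1, h1, h2⟩ := ih
      obtain ⟨c2, h3, h4⟩ := small_ev hx hy (P.vert a)
      refine ⟨min c1 c2, lt_min h1 h3, ?_⟩
      intro n hn R X Y hA
      rw [mem_insert] at hn
      rcases hn with rfl | hn
      · filter_upwards [h4 R X Y hA, hA.R_top.eventually_gt_atTop 0] with j hj hR r hr
        exact hj r (hr.trans (mul_le_mul_of_nonneg_right (min_le_right _ _) hR.le))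
      · filter_upwards [h2 n hn R X Y hA, hA.R_top.eventually_gt_atTop 0] with j hj hR r hr
        exact hj r (hr.trans (mul_le_mul_of_nonneg_right (min_le_left _ _) hR.le))
  obtain ⟨C, hC, h⟩ := kpoint_dist
  refine ⟨C * (c0 / 2) ^ (-(1 / 3) : ℝ), by positivity, ?_⟩
  intro R X Y hA
  have hall : ∀ᶠ j in atTop, ∀ n ∈ s, ∀ r : ℤ, (r : ℝ) ≤ c0 * R j →
      Small (X j) (Y j) (P.vert n) r := by
    rw [Filter.eventually_all_finset]
    exact fun n hn' => hs n hn' R X Y hA.app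
  filter_upwards [hall, hA.mono, hA.app.R_top.eventually_ge_atTop (2 / c0)] with j e1 e2 e4
  rw [div_le_iff₀ hc0] at e4
  have hR : 0 < R j := by
    by_contra hn
    have : R j * c0 ≤ 0 := mul_nonpos_of_nonpos_of_nonneg (not_lt.1 hn) hc0.le
    linarith
  set i : ℤ := ⌊c0 * R j⌋ with hi
  have hi1 : (i : ℝ) ≤ c0 * R j := Int.floor_le _
  have hi2 : c0 * R j < i + 1 := Int.lt_floor_add_one _
  have hi0 : 1 ≤ i := by
    have : (1 : ℝ) < i + 1 := by linarith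
    have : (0 : ℝ) < i := by linarith
    exact_mod_cast this
  have hS : ∀ n ∈ s, Small (X j) (Y j) (P.vert n) i := fun n hn' => e1 n hn' _ hi1
  have hP : ∀ n ∈ s, n < P.N := fun n hn' => (hn n hn').2.1.trans P.hmN
  have key := h s (fun n => lv P (X j) (Y j) n) (fun n => (P.side n).2)
    (fun _ => i) (fun _ _ => hi0) (fun a ha b hb hab => far_mono (by omega)
      (lv_far e2.1 e2.2 (hP a ha) (hP b hb) hab (hS a ha)))
    (E := EL P (X j) (Y j)) (W := Pool.Agent.Q1.M5.WL P (X j) (Y j))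
    (fun n hn' => (flat_EL e2.1 e2.2 (hn n hn') (by omega) (hS n hn')).1)
    (fun _ => TV P (X j) (Y j))
    (fun n hn' v hv => far_mono (by omega) (TV_far e2.1 e2.2 (hn n hn') (hS n hn') hv))
  rw [prod_const] at key
  refine key.trans ?_
  have hi3 : (0 : ℝ) < i := by exact_mod_cast (by omega : 0 < i)
  refine pow_le_pow_left₀ (by positivity) ?_ _
  rw [mul_assoc]
  refine mul_le_mul_of_nonneg_left ?_ (by linarith)
  rw [← Real.mul_rpow (by positivity) hR.le]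
  refine Real.rpow_le_rpow_of_nonpos (by positivity) ?_ (by norm_num)
  linarith

/-- **Upper bound** of the one-point function at a flat vertex. -/
theorem hh_upper (P : PType) (hx : StrictMono x) (hy : StrictMono y) {n : ℕ} (hn : FlatV P n) :
    ∃ C : ℝ, 0 < C ∧ ∀ (R : ℕ → ℝ) (X Y : ℕ → ℤ → ℤ), App x y R X Y → ∀ᶠ j in atTop,
      hh P (X j) (Y j) (lv P (X j) (Y j) n) ≤ C * R j ^ (-(1 / 3) : ℝ) := by
  obtain ⟨C, hC, h⟩ := kpt_upper P hx hy {n} (by simpa using hn)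
  refine ⟨C, hC, fun R X Y hA => ?_⟩
  filter_upwards [h R X Y hA] with j hj
  rw [card_singleton, pow_one] at hj
  refine le_trans (le_of_eq ?_) hj
  unfold hh
  exact Pr_congr fun ω _ => by simp

end Pool.Agent.H52.Q1
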